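import Pool.Agent.Y139.ID.Law

/-! There are only countably many algebraic laws. -/

set_option autoImplicit false

namespace Pool.Agent.Y139.ID

open Filter Topology Complex MeasureTheory UnitAddTorus

section
variable {d : Type*} [Fintype d]

theorem measure_ext_fourier {μ ν : Measure (UnitAddTorus d)} [IsFiniteMeasure μ]
    [IsFiniteMeasure ν] (h : ∀ n : d → ℤ, ∫ x, mFourier n x ∂μ = ∫ x, mFourier n x ∂ν) : μ = ν := by
  refine ext_of_forall_integral_eq_of_IsFiniteMeasure fun f => ?_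
  have h2 := integral_eq_of_fourier' (μ := μ) (ρ := ν) (q := fun _ => 1) continuous_const
    (fun n => by simpa using h n) (f := fun x => ((f x : ℝ) : ℂ)) (by fun_prop)
  simp only [mul_one, integral_complex_ofReal] at h2
  exact_mod_cast h2

theorem IsHaarOn.unique {H : AddSubgroup (UnitAddTorus d)} {ρ ρ' : Measure (UnitAddTorus d)}
    (h : IsHaarOn H ρ) (h' : IsHaarOn H ρ') : ρ = ρ' := by
  have := h.isProb
  have := h'.isProb
  refine measure_ext_fourier fun n => ?_
  by_cases hn : ∀ x ∈ H, mFourier n x = 1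
  · rw [h.integral_one hn, h'.integral_one hn]
  · push Not at hn
    rw [h.integral_zero hn, h'.integral_zero hn]

theorem countable_addSubgroup (N : ℕ) : Countable (AddSubgroup (Fin N → ℤ)) := by
  have : Function.Surjective fun s : Finset (Fin N → ℤ) =>
      AddSubgroup.closure (s : Set (Fin N → ℤ)) := by
    intro H
    have h1 : (AddSubgroup.toIntSubmodule H).FG := IsNoetherian.noetherian _
    rw [Submodule.fg_iff_addSubgroup_fg] at h1
    obtain ⟨s, hs⟩ := h1
    refine ⟨s, ?_⟩
    simpa using hs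
  exact this.countable

end

/-- **Only countably many laws.** -/
theorem countable_laws (N : ℕ) :
    {ν : Measure (UnitAddTorus (Fin N)) | AlgebraicLaw N ν}.Countable := by
  have : Countable (AddSubgroup (Fin N → ℤ)) := countable_addSubgroup N
  rw [Set.countable_coe_iff.symm]
  choose r Γ ρ c h1 h2 h3 h4 using fun ν : {ν : Measure (UnitAddTorus (Fin N)) //
    AlgebraicLaw N ν} => ν.2.pieces
  set Φ : {ν : Measure (UnitAddTorus (Fin N)) // AlgebraicLaw N ν} →
    (Σ r : ℕ, (Fin r → AddSubgroup (Fin N → ℤ)) × (Fin r → ((Fin N → ℤ) →₀ ℤ))) :=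
    fun ν => ⟨r ν, (Γ ν, c ν)⟩ with hΦ
  refine Function.Injective.countable (f := Φ) fun ν ν' h => ?_
  apply Subtype.ext
  have hp : IsProbabilityMeasure ν.1 := ⟨ν.2.mass⟩
  have hp' : IsProbabilityMeasure ν'.1 := ⟨ν'.2.mass⟩
  have h0 : (N.factorial : ℂ) ≠ 0 := by exact_mod_cast N.factorial_ne_zero
  refine measure_ext_fourier fun n => ?_
  apply mul_left_cancel₀ h0
  rw [h4 ν _ (by fun_prop), h4 ν' _ (by fun_prop)]
  -- the sums depend only on the data
  have key : ∀ (a b : Σ r : ℕ, (Fin r → AddSubgroup (Fin N → ℤ)) × (Fin r → ((Fin N → ℤ) →₀ ℤ)))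
      (ra : Fin a.1 → Measure (UnitAddTorus (Fin N))) (rb : Fin b.1 → Measure (UnitAddTorus (Fin N))),
      a = b → (∀ j, IsHaarOn (annih (a.2.1 j)) (ra j)) → (∀ j, IsHaarOn (annih (b.2.1 j)) (rb j)) →
      ∑ j, ∫ x, mFourier n x * trig (a.2.2 j) x ∂(ra j) =
        ∑ j, ∫ x, mFourier n x * trig (b.2.2 j) x ∂(rb j) := by
    rintro a b ra rb rfl ha hb
    refine Finset.sum_congr rfl fun j _ => ?_
    rw [(ha j).unique (hb j)]
  exact key (Φ ν) (Φ ν') (ρ ν) (ρ ν') h (h2 ν) (h2 ν')

end Pool.Agent.Y139.ID
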