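import Pool.Agent.Y139.ID.Sym

/-! Algebraic laws on the space of conjugacy classes. -/

set_option autoImplicit false

namespace Pool.Agent.Y139.ID

open Filter Topology Complex MeasureTheory UnitAddTorus

variable {N : ℕ}

/-- `ν` is an algebraic law on the space `T^N/S_N`, `T = ℝ/ℤ`, of the conjugacy classes of `U(N)`: a
symmetric probability measure on the torus `T^N`, concentrated on the self-dual points, for which all
virtual multiplicities `∫ tr(Λ^{k_1} ⊗ ⋯ ⊗ Λ^{k_r}) dν` are integers, and `N! ν` is the sum of at most `N!`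
measures `P_j ρ_j`, where `ρ_j` is the normalised Haar measure of the closed subgroup of `T^N` given by
a group `Γ_j` of characters and `P_j` is a trigonometric polynomial with integer coefficients, which is
real and nonnegative on this subgroup. -/
structure AlgebraicLaw (N : ℕ) (ν : Measure (UnitAddTorus (Fin N))) : Prop where
  mass : ν Set.univ = 1
  symm : ∀ σ : Equiv.Perm (Fin N), ν.map (fun x i => x (σ i)) = ν
  dual : ν (SD N)ᶜ = 0
  moments : ∀ (r : ℕ) (k : Fin r → ℕ), ∃ n : ℤ, ∫ x, chiW k x ∂ν = (n : ℂ)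
  pieces : ∃ (r : ℕ) (Γ : Fin r → AddSubgroup (Fin N → ℤ))
    (ρ : Fin r → Measure (UnitAddTorus (Fin N))) (c : Fin r → ((Fin N → ℤ) →₀ ℤ)),
    r ≤ N.factorial ∧ (∀ j, IsHaarOn (annih (Γ j)) (ρ j)) ∧
    (∀ j, ∀ x ∈ annih (Γ j), (trig (c j) x).im = 0 ∧ 0 ≤ (trig (c j) x).re) ∧
    ∀ f : UnitAddTorus (Fin N) → ℂ, Continuous f →
      (N.factorial : ℂ) * ∫ x, f x ∂ν = ∑ j, ∫ x, f x * trig (c j) x ∂(ρ j)

/-- symmetric measures on self-dual points -/
structure SymSD (ν : Measure (UnitAddTorus (Fin N))) : Prop where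
  symm : ∀ σ : Equiv.Perm (Fin N), ν.map (fun x i => x (σ i)) = ν
  dual : ν (SD N)ᶜ = 0

theorem continuous_perm (σ : Equiv.Perm (Fin N)) :
    Continuous fun (x : UnitAddTorus (Fin N)) (i : Fin N) => x (σ i) :=
  continuous_pi fun i => continuous_apply (σ i)

theorem SymSD.integral_perm {ν : Measure (UnitAddTorus (Fin N))} (h : SymSD ν)
    (σ : Equiv.Perm (Fin N)) {f : UnitAddTorus (Fin N) → ℂ} (hf : Continuous f) :
    ∫ x, f (fun i => x (σ i)) ∂ν = ∫ x, f x ∂ν := by
  conv_rhs => rw [← h.symm σ]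
  rw [integral_map (continuous_perm σ).measurable.aemeasurable hf.aestronglyMeasurable]

theorem SymSD.ae {ν : Measure (UnitAddTorus (Fin N))} (h : SymSD ν) : ∀ᵐ x ∂ν, x ∈ SD N := by
  rw [ae_iff]
  exact h.dual

theorem continuous_span {g : UnitAddTorus (Fin N) → ℂ} (hg : g ∈ Submodule.span ℤ (wordFun N)) :
    Continuous g := by
  induction hg using Submodule.span_induction with
  | mem f hf =>
    obtain ⟨r, k, -, rfl⟩ := hf
    exact continuous_chiW k
  | zero => exact continuous_const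
  | add f g _ _ hf hg => exact hf.add hg
  | smul a f _ hf => exact hf.const_smul a

/-- the Fourier coefficients of a symmetric measure -/
theorem fourier_sym {ν : Measure (UnitAddTorus (Fin N))} [IsFiniteMeasure ν] (h : SymSD ν)
    (l : Fin N → ℤ) {g : UnitAddTorus (Fin N) → ℂ}
    (hl : ∀ x ∈ SD N, ∑ σ : Equiv.Perm (Fin N), mFourier l (fun i => x (σ i)) = g x) :
    (N.factorial : ℂ) * ∫ x, mFourier l x ∂ν = ∫ x, g x ∂ν := by
  have h1 : ∫ x, g x ∂ν = ∫ x, ∑ σ : Equiv.Perm (Fin N), mFourier l (fun i => x (σ i)) ∂ν := by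
    refine integral_congr_ae ?_
    filter_upwards [h.ae] with x hx
    rw [hl x hx]
  rw [h1, integral_finsetSum _ fun σ _ => integrable_cont ν (by fun_prop)]
  rw [Finset.sum_congr rfl fun σ _ => h.integral_perm σ (f := fun x => mFourier l x) (by fun_prop)]
  rw [Finset.sum_const, Finset.card_univ, Fintype.card_perm, Fintype.card_fin, nsmul_eq_mul]

theorem span_int {ν : Measure (UnitAddTorus (Fin N))} [IsFiniteMeasure ν]
    (hm : ∀ (r : ℕ) (k : Fin r → ℕ), (∀ j, k j ≤ N) → ∃ n : ℤ, ∫ x, chiW k x ∂ν = (n : ℂ))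
    {g : UnitAddTorus (Fin N) → ℂ} (hg : g ∈ Submodule.span ℤ (wordFun N)) :
    ∃ n : ℤ, ∫ x, g x ∂ν = (n : ℂ) := by
  induction hg using Submodule.span_induction with
  | mem f hf =>
    obtain ⟨r, k, hk, rfl⟩ := hf
    exact hm r k hk
  | zero => exact ⟨0, by simp⟩
  | add f g hf' hg' hf hg =>
    obtain ⟨m, hm⟩ := hf
    obtain ⟨n, hn⟩ := hg
    refine ⟨m + n, ?_⟩
    have := integral_add (integrable_cont ν (continuous_span hf'))
      (integrable_cont ν (continuous_span hg'))
    simp only [Pi.add_apply]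
    rw [this, hm, hn]
    push_cast
    rfl
  | smul a f _ hf =>
    obtain ⟨m, hm⟩ := hf
    refine ⟨a * m, ?_⟩
    have h1 : ∀ x, (a • f) x = (a : ℂ) * f x := fun x => by simp
    simp only [h1]
    rw [integral_const_mul, hm]
    push_cast
    rfl

theorem span_eq {ν ν' : Measure (UnitAddTorus (Fin N))} [IsFiniteMeasure ν] [IsFiniteMeasure ν']
    (hm : ∀ (r : ℕ) (k : Fin r → ℕ), (∀ j, k j ≤ N) → ∫ x, chiW k x ∂ν = ∫ x, chiW k x ∂ν')
    {g : UnitAddTorus (Fin N) → ℂ} (hg : g ∈ Submodule.span ℤ (wordFun N)) :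
    ∫ x, g x ∂ν = ∫ x, g x ∂ν' := by
  induction hg using Submodule.span_induction with
  | mem f hf =>
    obtain ⟨r, k, hk, rfl⟩ := hf
    exact hm r k hk
  | zero => simp
  | add f g hf' hg' hf hg =>
    have h1 := integral_add (integrable_cont ν (continuous_span hf'))
      (integrable_cont ν (continuous_span hg'))
    have h2 := integral_add (integrable_cont ν' (continuous_span hf'))
      (integrable_cont ν' (continuous_span hg'))
    simp only [Pi.add_apply]
    rw [h1, h2, hf, hg]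
  | smul a f _ hf =>
    have h1 : ∀ x, (a • f) x = (a : ℂ) * f x := fun x => by simp
    simp only [h1]
    rw [integral_const_mul, integral_const_mul, hf]

theorem es_large {k : ℕ} (hk : N < k) (x : UnitAddTorus (Fin N)) : es k x = 0 := by
  unfold es
  rw [Finset.powersetCard_eq_empty.2 (by simpa using hk), Finset.sum_empty]

/-- words with too large letters give zero -/
theorem chiW_large {r : ℕ} {k : Fin r → ℕ} (hk : ¬ ∀ j, k j ≤ N) (x : UnitAddTorus (Fin N)) :
    chiW k x = 0 := by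
  push Not at hk
  obtain ⟨j, hj⟩ := hk
  unfold chiW
  exact Finset.prod_eq_zero (Finset.mem_univ j) (es_large hj x)

/-- **Laws with integral moments are algebraic.** -/
theorem algebraic_of_int {ν : Measure (UnitAddTorus (Fin N))} (hp : ν Set.univ = 1) (h : SymSD ν)
    (hm : ∀ (r : ℕ) (k : Fin r → ℕ), (∀ j, k j ≤ N) → ∃ n : ℤ, ∫ x, chiW k x ∂ν = (n : ℂ)) :
    AlgebraicLaw N ν := by
  have hpr : IsProbabilityMeasure ν := ⟨hp⟩
  set μ : Measure (UnitAddTorus (Fin N)) := (N.factorial : ENNReal) • ν with hμ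
  have hμf : IsFiniteMeasure μ := by
    rw [hμ]
    exact Measure.smul_finite ν (ENNReal.natCast_ne_top _)
  have hint : ∀ f : UnitAddTorus (Fin N) → ℂ, ∫ x, f x ∂μ = (N.factorial : ℂ) * ∫ x, f x ∂ν := by
    intro f
    rw [hμ, integral_smul_measure]
    simp
  obtain ⟨r, Γ, ρ, c, h1, h2, h3, h4⟩ := structure_int μ (fun l => by
    obtain ⟨g, hg, hl⟩ := sym_combo (N := N) l
    obtain ⟨n, hn⟩ := span_int hm hg
    exact ⟨n, by rw [hint, fourier_sym h l hl, hn]⟩) N.factorial (by
      rw [Measure.real, hμ, Measure.smul_apply, hp]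
      simp)
  refine ⟨hp, h.symm, h.dual, fun r k => ?_, r, Γ, ρ, c, h1, h2, h3, fun f hf => ?_⟩
  · by_cases hk : ∀ j, k j ≤ N
    · exact hm r k hk
    · refine ⟨0, ?_⟩
      simp [chiW_large hk]
  · rw [← hint, h4 f hf]

/-- laws are determined by their moments -/
theorem eq_of_moments {ν ν' : Measure (UnitAddTorus (Fin N))} [IsFiniteMeasure ν]
    [IsFiniteMeasure ν'] (h : SymSD ν) (h' : SymSD ν')
    (hm : ∀ (r : ℕ) (k : Fin r → ℕ), (∀ j, k j ≤ N) → ∫ x, chiW k x ∂ν = ∫ x, chiW k x ∂ν')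
    {f : UnitAddTorus (Fin N) → ℂ} (hf : Continuous f) : ∫ x, f x ∂ν = ∫ x, f x ∂ν' := by
  have h0 : (N.factorial : ℂ) ≠ 0 := by exact_mod_cast N.factorial_ne_zero
  have h1 : ∀ l : Fin N → ℤ, ∫ x, mFourier l x ∂ν = ∫ x, mFourier l x ∂ν' := by
    intro l
    obtain ⟨g, hg, hl⟩ := sym_combo (N := N) l
    have h2 := fourier_sym h l hl
    have h3 := fourier_sym h' l hl
    rw [span_eq hm hg, ← h3] at h2
    exact mul_left_cancel₀ h0 h2
  have h2 := integral_eq_of_fourier' (μ := ν) (ρ := ν') (q := fun _ => 1) continuous_const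
    (fun n => by simpa using h1 n) hf
  simpa using h2

end Pool.Agent.Y139.ID
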