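import Pool.Agent.Y139.ID.Main

/-! Local continuations give integral orders. -/

set_option autoImplicit false

namespace Pool.Agent.Y139.ID

open Complex Filter Topology NumberField IsDedekindDomain MeasureTheory Polynomial
open Pool.Agent.W353.EF (LFun)
open Pool.Agent.W353.EH (edgePoint size HasOrder)
open Pool.Agent.Y139.IM (edge_lim)

section
variable {K : Type} [Field K] [NumberField K] {N : ℕ}
  {θ : HeightOneSpectrum (𝓞 K) → UnitAddTorus (Fin N)}

theorem edge_one : edgePoint 0 0 = 1 := by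
  unfold edgePoint
  simp

theorem integral_of_cont (hθ : IsSelfDual θ) (h : LocalContinuation θ) : IntegralOrders θ := by
  intro r k
  obtain ⟨B, Λ, hB, hΛ, hΛ2⟩ := h r k
  have hnz := (word_size hθ k B hB).1
  have hlim : Tendsto (fun ε : ℝ => (1 : ℂ) + (ε : ℂ)) (𝓝[>] 0) (𝓝[≠] (1 : ℂ)) := by
    have := edge_lim 0
    rwa [edge_one] at this
  have hgt : ∀ ε : ℝ, 0 < ε → 1 < ((1 : ℂ) + (ε : ℂ)).re := by
    intro ε hε
    simp [hε]
  have hne : meromorphicOrderAt Λ 1 ≠ ⊤ := by
    intro htop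
    rw [meromorphicOrderAt_eq_top_iff] at htop
    have h1 := hlim.eventually htop
    have h2 := (hlim.mono_right nhdsWithin_le_nhds).eventually hΛ2
    have h3 : ∀ᶠ ε : ℝ in 𝓝[>] 0, False := by
      filter_upwards [h1, h2, hnz, self_mem_nhdsWithin] with ε g1 g2 g3 g4
      exact g3 ((g2 (hgt ε g4)).symm.trans g1)
    exact (h3.exists).elim fun _ h => h
  obtain ⟨m, hm⟩ := WithTop.ne_top_iff_exists.1 hne
  refine ⟨B, -m, hB, ?_⟩
  have hnz' : ∀ᶠ ε : ℝ in 𝓝[>] 0, LFun B (edgePoint 0 0 + ε) ≠ 0 := by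
    rw [edge_one]
    exact hnz
  have h1 : HasOrder 0 0 B m := by
    refine ⟨Λ, ?_, ?_, ?_⟩
    · rw [edge_one]
      exact hΛ
    · rw [edge_one]
      filter_upwards [hΛ2] with s hs hs'
      refine hs ?_
      simpa using hs'
    · rw [edge_one]
      exact hm.symm
  have h2 := Pool.Agent.Y139.SM.size_of_order hnz' h1
  push_cast
  refine h2.congr fun ε => ?_
  unfold size lsize
  rw [edge_one]
  rfl

end

end Pool.Agent.Y139.ID
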