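import Mathlib

/-!
# Integer valued positive definite functions on abelian groups

Let `T` be a unitary representation of an abelian group and `ξ` a vector such that all `⟪ξ, T_a ξ⟫` are
integers.  Then `⟪ξ, T_a ξ⟫` is the sum of at most `‖ξ‖²` functions `⟪η, T_a η⟫` of the same kind for which
only finitely many of the vectors `T_a η` are not orthogonal to `η`.  This is the theorem of Cohen and
Helson on idempotent measures, in the case of positive measures.
-/

set_option autoImplicit false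

namespace Pool.Agent.Y139.ID

open Filter Topology Complex

/-- the integers in `ℂ` are closed -/
theorem isClosed_int : IsClosed {z : ℂ | ∃ n : ℤ, z = n} := by
  have h1 : {z : ℂ | ∃ n : ℤ, z = n} =
      (Complex.re ⁻¹' (Set.range ((↑) : ℤ → ℝ))) ∩ (Complex.im ⁻¹' {0}) := by
    ext z
    constructor
    · rintro ⟨n, rfl⟩
      exact ⟨⟨n, by simp⟩, by simp⟩
    · rintro ⟨⟨n, hn⟩, h⟩
      exact ⟨n, Complex.ext (by simpa using hn.symm) (by simpa using h)⟩
  rw [h1]
  exact (Int.isClosedEmbedding_coe_real.isClosed_range.preimage Complex.continuous_re).inter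
    (isClosed_singleton.preimage Complex.continuous_im)

section weak
variable {H ι : Type*} [NormedAddCommGroup H] [InnerProductSpace ℂ H]

/-- weak convergence -/
def WLim (x : ι → H) (f : Filter ι) (z : H) : Prop :=
  ∀ y, Tendsto (fun i => inner ℂ (x i) y) f (𝓝 (inner ℂ z y))

theorem WLim.norm_le {x : ι → H} {f : Filter ι} [f.NeBot] {z : H} (h : WLim x f z) {C : ℝ}
    (hx : ∀ i, ‖x i‖ ≤ C) : ‖z‖ ≤ C := by
  have hC : 0 ≤ C := by
    obtain ⟨i, -⟩ := Filter.nonempty_of_mem (f := f) Filter.univ_mem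
    exact (norm_nonneg _).trans (hx i)
  have h1 : ‖inner ℂ z z‖ ≤ C * ‖z‖ := by
    refine le_of_tendsto (h z).norm (Eventually.of_forall fun i => ?_)
    exact (norm_inner_le_norm _ _).trans (mul_le_mul_of_nonneg_right (hx i) (norm_nonneg _))
  have h2 : ‖inner ℂ z z‖ = ‖z‖ * ‖z‖ := by
    rw [inner_self_eq_norm_sq_to_K, sq, norm_mul]
    simp
  rw [h2] at h1
  rcases eq_or_lt_of_le (norm_nonneg z) with h0 | h0
  · rw [← h0]; exact hC
  · exact le_of_mul_le_mul_right h1 h0

/-- bounded families have weak limits along ultrafilters -/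
theorem exists_wlim [CompleteSpace H] (U : Ultrafilter ι) (x : ι → H) {C : ℝ}
    (hx : ∀ i, ‖x i‖ ≤ C) : ∃ z, WLim x (U : Filter ι) z := by
  have hC : 0 ≤ C := by
    obtain ⟨i⟩ : Nonempty ι := ⟨(U.nonempty_of_mem Filter.univ_mem).some⟩
    exact (norm_nonneg _).trans (hx i)
  have h1 : ∀ y, ∃ l : ℂ, Tendsto (fun i => inner ℂ (x i) y) (U : Filter ι) (𝓝 l) := by
    intro y
    have h2 : IsCompact (Metric.closedBall (0 : ℂ) (C * ‖y‖)) := isCompact_closedBall _ _
    obtain ⟨l, -, hl⟩ := h2.ultrafilter_le_nhds (U.map fun i => inner ℂ (x i) y) (by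
      rw [Filter.le_principal_iff]
      refine Filter.mem_map.2 (Filter.Eventually.of_forall fun i => ?_)
      rw [Metric.mem_closedBall, dist_zero_right]
      exact (norm_inner_le_norm _ _).trans (mul_le_mul_of_nonneg_right (hx i) (norm_nonneg _)))
    exact ⟨l, hl⟩
  choose L hL using h1
  let l : H →ₗ[ℂ] ℂ :=
    { toFun := L
      map_add' := fun y y' => by
        refine tendsto_nhds_unique (hL (y + y')) (((hL y).add (hL y')).congr fun i => ?_)
        rw [inner_add_right]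
      map_smul' := fun c y => by
        refine tendsto_nhds_unique (hL (c • y)) (((hL y).const_mul c).congr fun i => ?_)
        rw [inner_smul_right] }
  have hb : ∀ y, ‖l y‖ ≤ C * ‖y‖ := fun y => by
    refine le_of_tendsto (hL y).norm (Eventually.of_forall fun i => ?_)
    exact (norm_inner_le_norm _ _).trans (mul_le_mul_of_nonneg_right (hx i) (norm_nonneg _))
  refine ⟨(InnerProductSpace.toDual ℂ H).symm (l.mkContinuous C hb), fun y => ?_⟩
  rw [InnerProductSpace.toDual_symm_apply]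
  exact hL y

/-- weak convergence with convergence of the norms is strong convergence -/
theorem WLim.strong {x : ι → H} {f : Filter ι} {z : H} (h : WLim x f z)
    (hx : ∀ i, ‖x i‖ = ‖z‖) : Tendsto (fun i => ‖x i - z‖) f (𝓝 0) := by
  have h1 : Tendsto (fun i => ‖x i - z‖ ^ 2) f (𝓝 0) := by
    have h2 : ∀ i, ‖x i - z‖ ^ 2 = 2 * ‖z‖ ^ 2 - 2 * (inner ℂ (x i) z).re := by
      intro i
      rw [@norm_sub_sq ℂ, hx i]
      simp only [RCLike.re_to_complex]
      ring
    simp only [h2]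
    have h3 := ((Complex.continuous_re.tendsto _).comp (h z)).const_mul (2 : ℝ)
    have h4 : (inner ℂ z z).re = ‖z‖ ^ 2 := by
      rw [inner_self_eq_norm_sq_to_K]
      norm_cast
    rw [h4] at h3
    have h5 := (tendsto_const_nhds (x := 2 * ‖z‖ ^ 2) (f := f)).sub h3
    rw [sub_self] at h5
    exact h5
  have h6 := (Real.continuous_sqrt.tendsto _).comp h1
  rw [Real.sqrt_zero] at h6
  refine h6.congr fun i => ?_
  simp [Real.sqrt_sq (norm_nonneg _)]

end weak

section rep
variable {G H : Type*} [AddCommGroup G] [NormedAddCommGroup H] [InnerProductSpace ℂ H]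

/-- a unitary representation of an abelian group -/
structure URep (T : G → H →L[ℂ] H) : Prop where
  zero : ∀ x, T 0 x = x
  add : ∀ a b x, T (a + b) x = T a (T b x)
  adj : ∀ a x y, inner ℂ (T a x) y = inner ℂ x (T (-a) y)

variable {T : G → H →L[ℂ] H} (hT : URep T)
include hT

theorem URep.comm (a b : G) (x : H) : T a (T b x) = T b (T a x) := by
  rw [← hT.add, add_comm, hT.add]

theorem URep.inner_eq (a : G) (x y : H) : inner ℂ (T a x) (T a y) = inner ℂ x y := by
  rw [hT.adj, ← hT.add, neg_add_cancel, hT.zero]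

theorem URep.norm (a : G) (x : H) : ‖T a x‖ = ‖x‖ := by
  have h1 := hT.inner_eq a x x
  rw [inner_self_eq_norm_sq_to_K, inner_self_eq_norm_sq_to_K] at h1
  have h2 : ‖T a x‖ ^ 2 = ‖x‖ ^ 2 := by exact_mod_cast h1
  exact (pow_left_inj₀ (norm_nonneg _) (norm_nonneg _) two_ne_zero).1 h2

/-- `x` is in the weak closure of the orbit of `ξ` -/
def Orb (T : G → H →L[ℂ] H) (ξ x : H) : Prop :=
  ∃ f : Filter G, f.NeBot ∧ WLim (fun a => T a ξ) f x

theorem orb_self (ξ : H) : Orb T ξ ξ :=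
  ⟨pure 0, inferInstance, fun y => by
    have := tendsto_pure_nhds (fun a => inner ℂ (T a ξ) y) 0
    simpa [hT.zero] using this⟩

theorem orb_lim {ξ x z : H} (hx : Orb T ξ x) {g : Filter G} [hg : g.NeBot]
    (hz : WLim (fun c => T c x) g z) : Orb T ξ z := by
  obtain ⟨f, hf, hx⟩ := hx
  refine ⟨g.bind fun c => f.map (c + ·), ?_, fun y => ?_⟩
  · rw [Filter.neBot_iff]
    intro h0
    have h1 : ∀ᶠ a in g.bind fun c => f.map (c + ·), False := by rw [h0]; exact Filter.mem_bot
    rw [Filter.eventually_bind] at h1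
    obtain ⟨c, hc⟩ := h1.exists
    rw [Filter.eventually_map] at hc
    exact hc.exists.elim fun _ h => h
  · refine Filter.tendsto_def.2 fun s hs => ?_
    obtain ⟨o, hos, ho, hzo⟩ := mem_nhds_iff.1 hs
    have h1 : ∀ᶠ c in g, inner ℂ (T c x) y ∈ o := (hz y) (ho.mem_nhds hzo)
    change ∀ᶠ a in g.bind fun c => f.map (c + ·), inner ℂ (T a ξ) y ∈ s
    rw [Filter.eventually_bind]
    filter_upwards [h1] with c hc
    rw [Filter.eventually_map]
    have h2 := hx (T (-c) y)
    rw [← hT.adj] at h2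
    have h3 : ∀ᶠ a in f, inner ℂ (T a ξ) (T (-c) y) ∈ o := h2 (ho.mem_nhds hc)
    filter_upwards [h3] with a ha
    apply hos
    rwa [hT.add, hT.adj]

theorem orb_trans {ξ x : H} (hx : Orb T ξ x) (c : G) : Orb T ξ (T c x) :=
  orb_lim hT hx (g := pure c) fun y => tendsto_pure_nhds (fun a => inner ℂ (T a x) y) c

variable {ξ : H} (hξ : ∀ a, ∃ n : ℤ, inner ℂ ξ (T a ξ) = n)
include hξ

theorem int_orbit (a b : G) : ∃ n : ℤ, inner ℂ (T a ξ) (T b ξ) = (n : ℂ) := by
  obtain ⟨n, hn⟩ := hξ (-a + b)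
  exact ⟨n, by rw [hT.adj, ← hT.add, hn]⟩

theorem int_orb {x w : H} (hx : Orb T ξ x) (hw : Orb T ξ w) : ∃ n : ℤ, inner ℂ x w = (n : ℂ) := by
  obtain ⟨f, hf, hx⟩ := hx
  obtain ⟨g, hg, hw⟩ := hw
  refine isClosed_int.mem_of_tendsto (hx w) (Eventually.of_forall fun a => ?_)
  have h1 : ∃ n : ℤ, inner ℂ w (T a ξ) = (n : ℂ) :=
    isClosed_int.mem_of_tendsto (hw (T a ξ)) (Eventually.of_forall fun b => int_orbit hT hξ b a)
  obtain ⟨n, hn⟩ := h1
  exact ⟨n, by rw [← inner_conj_symm, hn]; simp⟩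

theorem norm_orb {x : H} (hx : Orb T ξ x) : ∃ n : ℕ, ‖x‖ ^ 2 = n := by
  obtain ⟨n, hn⟩ := int_orb hT hξ hx hx
  rw [inner_self_eq_norm_sq_to_K] at hn
  have h1 : ‖x‖ ^ 2 = (n : ℝ) := by
    have h3 := congrArg Complex.re hn
    simpa [← Complex.ofReal_pow] using h3
  have h2 : 0 ≤ n := by
    have : (0 : ℝ) ≤ n := h1 ▸ sq_nonneg _
    exact_mod_cast this
  exact ⟨n.toNat, by rw [h1]; exact_mod_cast (Int.toNat_of_nonneg h2).symm⟩

/-- two close vectors in the orbit closure are equal -/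
theorem eq_of_close {x w : H} (hx : Orb T ξ x) (hw : Orb T ξ w) (h : ‖x - w‖ < 1)
    (hn : ‖x‖ = ‖w‖) : x = w := by
  obtain ⟨n, hn1⟩ := int_orb hT hξ hx hw
  obtain ⟨m, hm⟩ := norm_orb hT hξ hw
  have h1 : ‖x - w‖ ^ 2 = ((2 * m - 2 * n : ℤ) : ℝ) := by
    rw [@norm_sub_sq ℂ, hn, hn1, hm]
    simp
    ring
  have h2 : ‖x - w‖ ^ 2 < 1 := by
    have := norm_nonneg (x - w)
    nlinarith
  have h3 : (0 : ℝ) ≤ ‖x - w‖ ^ 2 := sq_nonneg _
  rw [h1] at h2 h3
  have h4 : (2 * m - 2 * n : ℤ) < 1 := by exact_mod_cast h2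
  have h5 : (0 : ℤ) ≤ 2 * m - 2 * n := by exact_mod_cast h3
  have h6 : (2 * m - 2 * n : ℤ) = 0 := by omega
  rw [h6] at h1
  have h7 : ‖x - w‖ = 0 := by simpa using h1
  exact sub_eq_zero.1 (norm_eq_zero.1 h7)

end rep

end Pool.Agent.Y139.ID
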