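import Pool.Agent.Y139.ID.Law
import Pool.Agent.Y139.ID.PD

/-! Compactness of the space of laws. -/

set_option autoImplicit false

namespace Pool.Agent.Y139.ID

open Filter Topology Complex MeasureTheory UnitAddTorus

variable {N : ℕ}

theorem zero_mem_SD : (0 : UnitAddTorus (Fin N)) ∈ SD N := ⟨1, fun j => by simp⟩

theorem exists_ulim {ι : Type*} (U : Ultrafilter ι) (μ : ι → Measure (UnitAddTorus (Fin N)))
    (hμ : ∀ i, μ i Set.univ = 1) (hs : ∀ i, SymSD (μ i)) :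
    ∃ ν : Measure (UnitAddTorus (Fin N)), ν Set.univ = 1 ∧ SymSD ν ∧
      ∀ f : UnitAddTorus (Fin N) → ℂ, Continuous f →
        Tendsto (fun i => ∫ x, f x ∂(μ i)) (U : Filter ι) (𝓝 (∫ x, f x ∂ν)) := by
  set P : ι → ProbabilityMeasure (UnitAddTorus (Fin N)) := fun i => ⟨μ i, ⟨hμ i⟩⟩ with hP
  obtain ⟨ν, -, hν⟩ := isCompact_univ.ultrafilter_le_nhds (U.map P) (by simp)
  have hν' : Tendsto P (U : Filter ι) (𝓝 ν) := hν
  have hlim : ∀ f : UnitAddTorus (Fin N) → ℂ, Continuous f →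
      Tendsto (fun i => ∫ x, f x ∂(μ i)) (U : Filter ι)
        (𝓝 (∫ x, f x ∂(ν : Measure (UnitAddTorus (Fin N))))) := by
    intro f hf
    exact (ProbabilityMeasure.tendsto_iff_forall_integral_rclike_tendsto ℂ).1 hν'
      (BoundedContinuousFunction.mkOfCompact ⟨f, hf⟩)
  have hlimR : ∀ f : UnitAddTorus (Fin N) → ℝ, Continuous f →
      Tendsto (fun i => ∫ x, f x ∂(μ i)) (U : Filter ι)
        (𝓝 (∫ x, f x ∂(ν : Measure (UnitAddTorus (Fin N))))) := by
    intro f hf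
    exact ProbabilityMeasure.tendsto_iff_forall_integral_tendsto.1 hν'
      (BoundedContinuousFunction.mkOfCompact ⟨f, hf⟩)
  refine ⟨ν, measure_univ, ⟨fun σ => ?_, ?_⟩, hlim⟩
  · have hm : Measurable fun (x : UnitAddTorus (Fin N)) (i : Fin N) => x (σ i) :=
      (continuous_perm σ).measurable
    have : IsFiniteMeasure ((ν : Measure (UnitAddTorus (Fin N))).map fun x i => x (σ i)) :=
      Measure.isFiniteMeasure_map _ _
    refine ext_of_forall_integral_eq_of_IsFiniteMeasure fun f => ?_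
    rw [integral_map hm.aemeasurable f.continuous.aestronglyMeasurable]
    refine tendsto_nhds_unique (hlimR (fun x => f (fun i => x (σ i)))
      (f.continuous.comp (continuous_perm σ))) ?_
    refine (hlimR f f.continuous).congr fun i => ?_
    conv_lhs => rw [← (hs i).symm σ]
    rw [integral_map hm.aemeasurable f.continuous.aestronglyMeasurable]
  · have hc : Continuous fun x : UnitAddTorus (Fin N) => Metric.infDist x (SD N) :=
      Metric.continuous_infDist_pt _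
    have h0 : ∀ i, ∫ x, Metric.infDist x (SD N) ∂(μ i) = 0 := by
      intro i
      have h1 : (fun x => Metric.infDist x (SD N)) =ᵐ[μ i] fun _ => (0 : ℝ) := by
        filter_upwards [(hs i).ae] with x hx
        exact Metric.infDist_zero_of_mem hx
      rw [integral_congr_ae h1, integral_zero]
    have h2 : ∫ x, Metric.infDist x (SD N) ∂(ν : Measure (UnitAddTorus (Fin N))) = 0 := by
      refine tendsto_nhds_unique (hlimR _ hc) ?_
      simp only [h0]
      exact tendsto_const_nhds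
    have h3 := (integral_eq_zero_iff_of_nonneg (fun x => Metric.infDist_nonneg)
      (integrable_cont_real _ hc)).1 h2
    have h4 : ∀ᵐ x ∂(ν : Measure (UnitAddTorus (Fin N))), x ∈ SD N := by
      filter_upwards [h3] with x hx
      exact (isClosed_SD.mem_iff_infDist_zero ⟨0, zero_mem_SD⟩).2 hx
    rwa [ae_iff] at h4

/-- **Quantitative form.** -/
theorem near_law (N : ℕ) {m : ℕ} (F : Fin m → UnitAddTorus (Fin N) → ℂ)
    (hF : ∀ i, Continuous (F i)) {δ : ℝ} (hδ : 0 < δ) :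
    ∃ (η : ℝ) (R : ℕ), 0 < η ∧ ∀ μ : Measure (UnitAddTorus (Fin N)), μ Set.univ = 1 → SymSD μ →
      (∀ (r : ℕ) (k : Fin r → ℕ), r ≤ R → (∀ j, k j ≤ N) →
        ∃ n : ℤ, ‖∫ x, chiW k x ∂μ - n‖ ≤ η) →
      ∃ ν : Measure (UnitAddTorus (Fin N)), AlgebraicLaw N ν ∧
        ∀ i, ‖∫ x, F i x ∂μ - ∫ x, F i x ∂ν‖ ≤ δ := by
  by_contra hcon
  push Not at hcon
  choose μ h1 h2 h3 h4 using fun M : ℕ => hcon (1 / ((M : ℝ) + 1)) M (by positivity)
  set U : Ultrafilter ℕ := Filter.hyperfilter ℕ with hU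
  obtain ⟨ν, hν, hs, hlim⟩ := exists_ulim U μ h1 h2
  have hUtop : (U : Filter ℕ) ≤ atTop := by
    rw [← Nat.cofinite_eq_atTop]
    exact Filter.hyperfilter_le_cofinite
  have hlaw : AlgebraicLaw N ν := by
    refine algebraic_of_int hν hs fun r k hk => ?_
    have hl := hlim (chiW k) (continuous_chiW k)
    -- distance to the integers
    have h5' : ∀ M : ℕ, ∃ n : ℤ, r ≤ M → ‖∫ x, chiW k x ∂(μ M) - n‖ ≤ 1 / ((M : ℝ) + 1) := by
      intro M
      by_cases hM : r ≤ M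
      · obtain ⟨n, hn⟩ := h3 M r k hM hk
        exact ⟨n, fun _ => hn⟩
      · exact ⟨0, fun h => absurd h hM⟩
    choose n hn using h5'
    have h6 : Tendsto (fun M => ((n M : ℤ) : ℂ)) (U : Filter ℕ) (𝓝 (∫ x, chiW k x ∂ν)) := by
      have h7 : Tendsto (fun M => ∫ x, chiW k x ∂(μ M) - ((n M : ℤ) : ℂ)) (U : Filter ℕ) (𝓝 0) := by
        refine squeeze_zero_norm' (a := fun M : ℕ => 1 / ((M : ℝ) + 1)) ?_
          (tendsto_one_div_add_atTop_nhds_zero_nat.mono_left hUtop)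
        exact ((eventually_ge_atTop r).filter_mono hUtop).mono fun M hM => hn M hM
      have h8 := hl.sub h7
      rw [sub_zero] at h8
      refine h8.congr fun M => ?_
      ring
    have h9 := isClosed_int.mem_of_tendsto h6 (Eventually.of_forall fun M => ⟨n M, rfl⟩)
    obtain ⟨z, hz⟩ := h9
    exact ⟨z, hz⟩
  have h10 : ∀ᶠ M in (U : Filter ℕ), ∀ i, ‖∫ x, F i x ∂(μ M) - ∫ x, F i x ∂ν‖ < δ := by
    rw [Filter.eventually_all]
    intro i
    have := (hlim (F i) (hF i)).sub_const (∫ x, F i x ∂ν)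
    rw [sub_self] at this
    have h11 := this.norm
    rw [norm_zero] at h11
    exact h11.eventually_lt_const hδ
  obtain ⟨M, hM⟩ := h10.exists
  obtain ⟨i, hi⟩ := h4 M ν hlaw
  exact absurd (hM i) (not_lt.2 hi.le)

/-- **Convergence.** -/
theorem conv_law {ι : Type*} {l : Filter ι} [l.NeBot] (μ : ι → Measure (UnitAddTorus (Fin N)))
    (hμ : ∀ i, μ i Set.univ = 1) (hs : ∀ i, SymSD (μ i))
    (hm : ∀ (r : ℕ) (k : Fin r → ℕ), (∀ j, k j ≤ N) →
      ∃ n : ℤ, Tendsto (fun i => ∫ x, chiW k x ∂(μ i)) l (𝓝 (n : ℂ))) :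
    ∃ ν : Measure (UnitAddTorus (Fin N)), AlgebraicLaw N ν ∧
      ∀ f : UnitAddTorus (Fin N) → ℂ, Continuous f →
        Tendsto (fun i => ∫ x, f x ∂(μ i)) l (𝓝 (∫ x, f x ∂ν)) := by
  have key : ∀ U : Ultrafilter ι, (U : Filter ι) ≤ l →
      ∃ ν : Measure (UnitAddTorus (Fin N)), ν Set.univ = 1 ∧ SymSD ν ∧
      (∀ f : UnitAddTorus (Fin N) → ℂ, Continuous f →
        Tendsto (fun i => ∫ x, f x ∂(μ i)) (U : Filter ι) (𝓝 (∫ x, f x ∂ν))) ∧
      ∀ (r : ℕ) (k : Fin r → ℕ), (∀ j, k j ≤ N) → ∀ z : ℂ,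
        Tendsto (fun i => ∫ x, chiW k x ∂(μ i)) l (𝓝 z) → ∫ x, chiW k x ∂ν = z := by
    intro U hU
    obtain ⟨ν, h1, h2, h3⟩ := exists_ulim U μ hμ hs
    refine ⟨ν, h1, h2, h3, fun r k hk z hz => ?_⟩
    exact tendsto_nhds_unique (h3 _ (continuous_chiW k)) (hz.mono_left hU)
  obtain ⟨ν, h1, h2, -, h4⟩ := key (Ultrafilter.of l) (Ultrafilter.of_le l)
  have hp : IsProbabilityMeasure ν := ⟨h1⟩
  refine ⟨ν, algebraic_of_int h1 h2 fun r k hk => ?_, fun f hf => ?_⟩
  · obtain ⟨n, hn⟩ := hm r k hk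
    exact ⟨n, h4 r k hk _ hn⟩
  · rw [tendsto_iff_ultrafilter]
    intro U hU
    obtain ⟨ν', h1', h2', h3', h4'⟩ := key U hU
    have hp' : IsProbabilityMeasure ν' := ⟨h1'⟩
    have e : ∫ x, f x ∂ν = ∫ x, f x ∂ν' := by
      refine eq_of_moments h2 h2' (fun r k hk => ?_) hf
      obtain ⟨n, hn⟩ := hm r k hk
      rw [h4 r k hk _ hn, h4' r k hk _ hn]
    rw [e]
    exact h3' f hf

end Pool.Agent.Y139.ID
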