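import Pool.Agent.Y139.ID.Law

/-!
# Families of self-dual Frobenius classes: definitions

`K` is a number field and `θ v = (θ_{v,1}, …, θ_{v,N})` are the Frobenius angles, modulo one, of a family of
`N`-dimensional representations `V` at the primes `v` of `K`: the eigenvalues of the Frobenius at `v` are
`q_v^{n/2} e(θ_{v,j})`, where `n` is the weight.
-/

set_option autoImplicit false

namespace Pool.Agent.Y139.ID

open NumberField IsDedekindDomain Filter Topology Polynomial

section
variable {K : Type} [Field K] [NumberField K] {N : ℕ}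

/-- For almost all primes `v` the multiset of the eigenvalues `e(θ_{v,j})` is stable under complex
conjugation (the family is polarized). -/
def IsSelfDual (θ : HeightOneSpectrum (𝓞 K) → UnitAddTorus (Fin N)) : Prop :=
  ∀ᶠ v in cofinite, θ v ∈ SD N

/-- The polynomials `B v` are the Euler factors of the `L`-function of the tensor product
`Λ^{k_1} V ⊗ ⋯ ⊗ Λ^{k_r} V` of exterior powers, normalized such that the edge of absolute convergence is
the line `Re s = 1`: for almost all primes `v`,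
`B_v(z) = ∏ (1 - e(∑_j ∑_{i ∈ S_j} θ_{v,i}) z)`, the product over all families `(S_1, …, S_r)` of subsets
`S_j` with `k_j` elements of `{1, …, N}`; at the other primes `B v` is an arbitrary polynomial, and no
factor `1 / B_v(q_v^{-s})` has a pole at `s = 1`. -/
def IsWordSystem (θ : HeightOneSpectrum (𝓞 K) → UnitAddTorus (Fin N)) {r : ℕ} (k : Fin r → ℕ)
    (B : HeightOneSpectrum (𝓞 K) → ℂ[X]) : Prop :=
  (∀ᶠ v in cofinite, ∀ z : ℂ, (B v).eval z =
    ∏ S ∈ Fintype.piFinset (fun j => Finset.powersetCard (k j) (Finset.univ : Finset (Fin N))),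
      (1 - (∏ j, ∏ i ∈ S j, ev (θ v) i) * z)) ∧
  ∀ v, (B v).eval ((Ideal.absNorm v.asIdeal : ℂ) ^ (-(1 : ℂ))) ≠ 0

/-- The Euler product `L(s) = ∏_v B_v(q_v^{-s})⁻¹`. -/
noncomputable def LProd (B : HeightOneSpectrum (𝓞 K) → ℂ[X]) (s : ℂ) : ℂ :=
  ∏' v : HeightOneSpectrum (𝓞 K), ((B v).eval ((Ideal.absNorm v.asIdeal : ℂ) ^ (-s)))⁻¹

/-- `log |L(1 + ε)| / log(1/ε)`; for a function with a meromorphic continuation with a pole of order `m`
at `s = 1` it tends to `m` as `ε → 0+`. -/
noncomputable def lsize (B : HeightOneSpectrum (𝓞 K) → ℂ[X]) (ε : ℝ) : ℝ :=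
  Real.log ‖LProd B (1 + ε)‖ / Real.log (1 / ε)

/-- The mean value of `f` over the primes `v` of `K` with the weights `q_v^{-1-ε}`; the limit as `ε → 0+`
is the mean value in the sense of Dirichlet density. -/
noncomputable def avg (f : HeightOneSpectrum (𝓞 K) → ℝ) (ε : ℝ) : ℝ :=
  (∑' v : HeightOneSpectrum (𝓞 K), f v * (Ideal.absNorm v.asIdeal : ℝ) ^ (-(1 + ε))) /
    ∑' v : HeightOneSpectrum (𝓞 K), (Ideal.absNorm v.asIdeal : ℝ) ^ (-(1 + ε))

/-- For every tensor product of exterior powers of `V` the quotient `log |L(1 + ε)| / log(1/ε)` tends to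
an integer as `ε → 0+`. -/
def IntegralOrders (θ : HeightOneSpectrum (𝓞 K) → UnitAddTorus (Fin N)) : Prop :=
  ∀ (r : ℕ) (k : Fin r → ℕ), ∃ (B : HeightOneSpectrum (𝓞 K) → ℂ[X]) (n : ℤ),
    IsWordSystem θ k B ∧ Tendsto (lsize B) (𝓝[>] 0) (𝓝 (n : ℝ))

/-- The `L`-function of every tensor product of exterior powers of `V` has a meromorphic continuation to
some neighbourhood of the point `s = 1`. -/
def LocalContinuation (θ : HeightOneSpectrum (𝓞 K) → UnitAddTorus (Fin N)) : Prop :=
  ∀ (r : ℕ) (k : Fin r → ℕ), ∃ (B : HeightOneSpectrum (𝓞 K) → ℂ[X]) (Λ : ℂ → ℂ),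
    IsWordSystem θ k B ∧ MeromorphicAt Λ 1 ∧ ∀ᶠ s in 𝓝 (1 : ℂ), 1 < s.re → Λ s = LProd B s

end

end Pool.Agent.Y139.ID
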