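import Mathlib

/-! The Haar measure of a closed subgroup of a torus. -/

set_option autoImplicit false

namespace Pool.Agent.Y139.ID

open Filter Topology Complex MeasureTheory UnitAddTorus

variable {d : Type*} [Fintype d]

theorem mFourier_apply_add (n : d → ℤ) (x y : UnitAddTorus d) :
    mFourier n (x + y) = mFourier n x * mFourier n y := by
  simp only [mFourier, ContinuousMap.coe_mk, ← Finset.prod_mul_distrib]
  refine Finset.prod_congr rfl fun i _ => ?_
  simp only [fourier_apply, Pi.add_apply, smul_add, AddCircle.toCircle_add, Circle.coe_mul]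

theorem mFourier_apply_zero (n : d → ℤ) : mFourier n (0 : UnitAddTorus d) = 1 := by
  simp only [mFourier, ContinuousMap.coe_mk]
  refine Finset.prod_eq_one fun i _ => ?_
  simp [fourier_apply]

theorem mFourier_apply_neg (n : d → ℤ) (x : UnitAddTorus d) :
    mFourier n (-x) = (starRingEnd ℂ) (mFourier n x) := by
  rw [← mFourier_neg]
  simp only [mFourier, ContinuousMap.coe_mk]
  refine Finset.prod_congr rfl fun i _ => ?_
  simp [fourier_apply]

/-- `ρ` is the normalised Haar measure of the closed subgroup `H` of the torus -/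
structure IsHaarOn (H : AddSubgroup (UnitAddTorus d)) (ρ : Measure (UnitAddTorus d)) : Prop where
  closed : IsClosed (H : Set (UnitAddTorus d))
  mass : ρ Set.univ = 1
  supp : ρ (H : Set (UnitAddTorus d))ᶜ = 0
  inv : ∀ h ∈ H, ρ.map (fun x => h + x) = ρ

theorem exists_haarOn (H : AddSubgroup (UnitAddTorus d)) (hH : IsClosed (H : Set (UnitAddTorus d))) :
    ∃ ρ : Measure (UnitAddTorus d), IsHaarOn H ρ ∧
      ∀ U : Set (UnitAddTorus d), IsOpen U → (∃ x ∈ H, x ∈ U) → ρ U ≠ 0 := by
  have hc : CompactSpace H := isCompact_iff_compactSpace.mp hH.isCompact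
  set m : Measure H := Measure.addHaarMeasure (⊤ : TopologicalSpace.PositiveCompacts H) with hm
  have hmeas : Measurable (Subtype.val : H → UnitAddTorus d) := measurable_subtype_coe
  refine ⟨m.map Subtype.val, ⟨hH, ?_, ?_, ?_⟩, ?_⟩
  · rw [Measure.map_apply hmeas MeasurableSet.univ, Set.preimage_univ]
    have := Measure.addHaarMeasure_self (K₀ := (⊤ : TopologicalSpace.PositiveCompacts H))
    simpa using this
  · rw [Measure.map_apply hmeas hH.measurableSet.compl]
    have : (Subtype.val : H → UnitAddTorus d) ⁻¹' (H : Set (UnitAddTorus d))ᶜ = ∅ := by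
      ext x
      simp
    rw [this, measure_empty]
  · intro h hh
    rw [Measure.map_map (by fun_prop) hmeas]
    have e : (fun x => h + x) ∘ (Subtype.val : H → UnitAddTorus d) =
        Subtype.val ∘ fun x : H => (⟨h, hh⟩ : H) + x := by
      ext x
      rfl
    rw [e, ← Measure.map_map hmeas (by fun_prop), map_add_left_eq_self]
  · rintro U hU ⟨x, hx, hxU⟩
    rw [Measure.map_apply hmeas hU.measurableSet]
    exact (hU.preimage continuous_subtype_val).measure_ne_zero m ⟨⟨x, hx⟩, hxU⟩

omit [Fintype d] in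
theorem IsHaarOn.isProb {H : AddSubgroup (UnitAddTorus d)} {ρ : Measure (UnitAddTorus d)}
    (h : IsHaarOn H ρ) : IsProbabilityMeasure ρ := ⟨h.mass⟩

theorem IsHaarOn.integral_one {H : AddSubgroup (UnitAddTorus d)} {ρ : Measure (UnitAddTorus d)}
    (h : IsHaarOn H ρ) {n : d → ℤ} (hn : ∀ x ∈ H, mFourier n x = 1) : ∫ x, mFourier n x ∂ρ = 1 := by
  have := h.isProb
  have h1 : ∀ᵐ x ∂ρ, mFourier n x = 1 := by
    have h2 : ∀ᵐ x ∂ρ, x ∈ (H : Set (UnitAddTorus d)) := by
      rw [ae_iff]
      exact h.supp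
    filter_upwards [h2] with x hx
    exact hn x hx
  rw [integral_congr_ae h1]
  simp

theorem IsHaarOn.integral_zero {H : AddSubgroup (UnitAddTorus d)} {ρ : Measure (UnitAddTorus d)}
    (h : IsHaarOn H ρ) {n : d → ℤ} (hn : ∃ x ∈ H, mFourier n x ≠ 1) :
    ∫ x, mFourier n x ∂ρ = 0 := by
  obtain ⟨y, hy, hy1⟩ := hn
  have h1 : ∫ x, mFourier n x ∂ρ = mFourier n y * ∫ x, mFourier n x ∂ρ := by
    conv_lhs => rw [← h.inv y hy]
    rw [integral_map (by fun_prop) (by fun_prop)]
    simp only [mFourier_apply_add]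
    rw [integral_const_mul]
  have h2 : (1 - mFourier n y) * ∫ x, mFourier n x ∂ρ = 0 := by
    rw [sub_mul, one_mul, ← h1, sub_self]
  rcases mul_eq_zero.1 h2 with h3 | h3
  · exact absurd (sub_eq_zero.1 h3).symm hy1
  · exact h3

/-- a nonnegative continuous function with integral zero vanishes on the subgroup -/
theorem zero_of_integral {H : AddSubgroup (UnitAddTorus d)} {ρ : Measure (UnitAddTorus d)}
    (h : IsHaarOn H ρ)
    (ho : ∀ U : Set (UnitAddTorus d), IsOpen U → (∃ x ∈ H, x ∈ U) → ρ U ≠ 0)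
    {g : UnitAddTorus d → ℝ} (hg : Continuous g) (h0 : ∀ x, 0 ≤ g x) (hi : ∫ x, g x ∂ρ = 0) :
    ∀ x ∈ H, g x = 0 := by
  have := h.isProb
  intro x hx
  by_contra hne
  have hpos : 0 < g x := lt_of_le_of_ne (h0 x) (Ne.symm hne)
  have hint : Integrable g ρ := hg.integrable_of_hasCompactSupport (HasCompactSupport.of_compactSpace g)
  have h1 := (integral_eq_zero_iff_of_nonneg h0 hint).1 hi
  refine ho {y | 0 < g y} (isOpen_lt continuous_const hg) ⟨x, hx, hpos⟩ ?_
  have h2 : ∀ᵐ y ∂ρ, ¬ (0 < g y) := by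
    filter_upwards [h1] with y hy
    rw [hy]
    simp
  rw [ae_iff] at h2
  simpa using h2

/-- the trigonometric polynomial with integer coefficients `c` -/
noncomputable def trig (c : (d → ℤ) →₀ ℤ) (x : UnitAddTorus d) : ℂ :=
  c.sum fun n a => (a : ℂ) * mFourier n x

theorem continuous_trig (c : (d → ℤ) →₀ ℤ) : Continuous (trig c) := by
  unfold trig Finsupp.sum
  fun_prop

theorem trig_add (c c' : (d → ℤ) →₀ ℤ) (x : UnitAddTorus d) :
    trig (c + c') x = trig c x + trig c' x := by
  unfold trig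
  classical
  rw [Finsupp.sum_add_index']
  · intro n
    simp
  · intro n a b
    push_cast
    ring

theorem trig_single (n : d → ℤ) (a : ℤ) (x : UnitAddTorus d) :
    trig (Finsupp.single n a) x = a * mFourier n x := by
  unfold trig
  rw [Finsupp.sum_single_index]
  simp

theorem trig_zero (x : UnitAddTorus d) : trig (0 : (d → ℤ) →₀ ℤ) x = 0 := by
  unfold trig
  simp

theorem trig_finset_sum {ι : Type*} (s : Finset ι) (c : ι → (d → ℤ) →₀ ℤ) (x : UnitAddTorus d) :
    trig (∑ i ∈ s, c i) x = ∑ i ∈ s, trig (c i) x := by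
  classical
  induction s using Finset.induction_on with
  | empty => simp [trig_zero]
  | insert i s hi ih => rw [Finset.sum_insert hi, Finset.sum_insert hi, trig_add, ih]

/-- continuous linear functionals are determined by the Fourier coefficients -/
theorem eq_of_fourier (L M : C(UnitAddTorus d, ℂ) →ₗ[ℂ] ℂ) (C D : ℝ)
    (hL : ∀ f : C(UnitAddTorus d, ℂ), ‖L f‖ ≤ C * ‖f‖)
    (hM : ∀ f : C(UnitAddTorus d, ℂ), ‖M f‖ ≤ D * ‖f‖)
    (h : ∀ n : d → ℤ, L (mFourier n) = M (mFourier n)) : L = M := by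
  set Lc := L.mkContinuous C hL with hLc
  set Mc := M.mkContinuous D hM with hMc
  have : Lc = Mc := by
    refine ContinuousLinearMap.ext_on (s := Set.range (mFourier (d := d))) ?_ ?_
    · have h1 := span_mFourier_closure_eq_top (d := d)
      rw [dense_iff_closure_eq]
      have h2 := congrArg (fun S : Submodule ℂ C(UnitAddTorus d, ℂ) =>
        (S : Set C(UnitAddTorus d, ℂ))) h1
      simpa [Submodule.topologicalClosure_coe] using h2
    · rintro _ ⟨n, rfl⟩
      exact h n
  ext f
  exact congrArg (fun T => T f) this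

theorem integrable_cont (μ : Measure (UnitAddTorus d)) [IsFiniteMeasure μ]
    {f : UnitAddTorus d → ℂ} (hf : Continuous f) : Integrable f μ :=
  hf.integrable_of_hasCompactSupport (HasCompactSupport.of_compactSpace f)

theorem integrable_cont_real (μ : Measure (UnitAddTorus d)) [IsFiniteMeasure μ]
    {f : UnitAddTorus d → ℝ} (hf : Continuous f) : Integrable f μ :=
  hf.integrable_of_hasCompactSupport (HasCompactSupport.of_compactSpace f)

/-- integration against `p dμ` -/
noncomputable def intL (μ : Measure (UnitAddTorus d)) [IsFiniteMeasure μ]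
    (p : C(UnitAddTorus d, ℂ)) : C(UnitAddTorus d, ℂ) →ₗ[ℂ] ℂ where
  toFun f := ∫ x, f x * p x ∂μ
  map_add' f g := by
    rw [← integral_add (integrable_cont μ (by fun_prop)) (integrable_cont μ (by fun_prop))]
    refine integral_congr_ae (Eventually.of_forall fun x => ?_)
    simp [add_mul]
  map_smul' a f := by
    simp only [ContinuousMap.smul_apply, smul_eq_mul, RingHom.id_apply, mul_assoc]
    rw [integral_const_mul]

theorem intL_bound (μ : Measure (UnitAddTorus d)) [IsFiniteMeasure μ]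
    (p f : C(UnitAddTorus d, ℂ)) : ‖intL μ p f‖ ≤ (‖p‖ * μ.real Set.univ) * ‖f‖ := by
  have h1 : ‖∫ x, f x * p x ∂μ‖ ≤ (‖f‖ * ‖p‖) * μ.real Set.univ := by
    refine norm_integral_le_of_norm_le_const (Eventually.of_forall fun x => ?_)
    rw [norm_mul]
    exact mul_le_mul (f.norm_coe_le_norm x) (p.norm_coe_le_norm x) (norm_nonneg _) (norm_nonneg _)
  calc ‖intL μ p f‖ = ‖∫ x, f x * p x ∂μ‖ := rfl
    _ ≤ (‖f‖ * ‖p‖) * μ.real Set.univ := h1
    _ = _ := by ring

theorem integral_eq_of_fourier {μ ρ : Measure (UnitAddTorus d)} [IsFiniteMeasure μ]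
    [IsFiniteMeasure ρ] {p q : UnitAddTorus d → ℂ} (hp : Continuous p) (hq : Continuous q)
    (h : ∀ n : d → ℤ, ∫ x, mFourier n x * p x ∂μ = ∫ x, mFourier n x * q x ∂ρ)
    {f : UnitAddTorus d → ℂ} (hf : Continuous f) :
    ∫ x, f x * p x ∂μ = ∫ x, f x * q x ∂ρ := by
  have h1 := eq_of_fourier (intL μ ⟨p, hp⟩) (intL ρ ⟨q, hq⟩) _ _ (intL_bound μ _) (intL_bound ρ _) h
  exact congrArg (fun T => T (⟨f, hf⟩ : C(UnitAddTorus d, ℂ))) h1

theorem integral_eq_of_fourier' {μ ρ : Measure (UnitAddTorus d)} [IsFiniteMeasure μ]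
    [IsFiniteMeasure ρ] {q : UnitAddTorus d → ℂ} (hq : Continuous q)
    (h : ∀ n : d → ℤ, ∫ x, mFourier n x ∂μ = ∫ x, mFourier n x * q x ∂ρ)
    {f : UnitAddTorus d → ℂ} (hf : Continuous f) :
    ∫ x, f x ∂μ = ∫ x, f x * q x ∂ρ := by
  have h1 := integral_eq_of_fourier (μ := μ) (ρ := ρ) (p := fun _ => 1) (q := q)
    continuous_const hq (fun n => by simpa using h n) hf
  simpa using h1

end Pool.Agent.Y139.ID
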