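import Pool.Agent.Y139.ID.Meas

/-! The traces are real and symmetric. -/

set_option autoImplicit false

namespace Pool.Agent.Y139.ID

open Filter Topology Complex MeasureTheory UnitAddTorus

variable {N : ℕ}

theorem es_eq (k : ℕ) (x : UnitAddTorus (Fin N)) :
    es k x = MvPolynomial.aeval (ev x) (MvPolynomial.esymm (Fin N) ℤ k) := by
  simp [MvPolynomial.esymm, es, map_sum, map_prod]

theorem symFun_es (k : ℕ) : SymFun (es k : UnitAddTorus (Fin N) → ℂ) := by
  intro σ x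
  rw [es_eq, es_eq]
  conv_rhs => rw [← MvPolynomial.rename_esymm (Fin N) ℤ k σ, MvPolynomial.aeval_rename]
  rfl

theorem symFun_chiW {r : ℕ} (k : Fin r → ℕ) : SymFun (chiW k : UnitAddTorus (Fin N) → ℂ) := by
  intro σ x
  unfold chiW
  exact Finset.prod_congr rfl fun j _ => symFun_es _ σ x

theorem conj_ev (x : UnitAddTorus (Fin N)) (i : Fin N) :
    (starRingEnd ℂ) (ev x i) = ev (-x) i := by
  rw [ev_neg, Complex.inv_def, Complex.normSq_eq_norm_sq, norm_ev]
  simp

theorem conj_es (k : ℕ) {x : UnitAddTorus (Fin N)} (hx : x ∈ SD N) :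
    (starRingEnd ℂ) (es k x) = es k x := by
  obtain ⟨σ, hσ⟩ := hx
  have h1 : (starRingEnd ℂ) (es k x) = es k (-x) := by
    unfold es
    rw [map_sum]
    refine Finset.sum_congr rfl fun S _ => ?_
    rw [map_prod]
    exact Finset.prod_congr rfl fun i _ => conj_ev x i
  have h2 : -x = fun j => x (σ j) := by
    ext j
    rw [hσ j]
    rfl
  rw [h1, h2, symFun_es k σ x]

theorem conj_chiW {r : ℕ} (k : Fin r → ℕ) {x : UnitAddTorus (Fin N)} (hx : x ∈ SD N) :
    (starRingEnd ℂ) (chiW k x) = chiW k x := by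
  unfold chiW
  rw [map_prod]
  exact Finset.prod_congr rfl fun j _ => conj_es _ hx

theorem im_chiW {r : ℕ} (k : Fin r → ℕ) {x : UnitAddTorus (Fin N)} (hx : x ∈ SD N) :
    (chiW k x).im = 0 := Complex.conj_eq_iff_im.1 (conj_chiW k hx)

theorem re_chiW {r : ℕ} (k : Fin r → ℕ) {x : UnitAddTorus (Fin N)} (hx : x ∈ SD N) :
    (((chiW k x).re : ℝ) : ℂ) = chiW k x := Complex.conj_eq_iff_re.1 (conj_chiW k hx)

/-- the index set of the eigenvalues -/
def idx (N : ℕ) {r : ℕ} (k : Fin r → ℕ) : Finset (Fin r → Finset (Fin N)) :=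
  Fintype.piFinset fun j => Finset.powersetCard (k j) Finset.univ

theorem chiW_eq_sum {r : ℕ} (k : Fin r → ℕ) (x : UnitAddTorus (Fin N)) :
    chiW k x = ∑ S ∈ idx N k, ∏ j, ∏ i ∈ S j, ev x i := by
  unfold chiW es idx
  rw [Finset.prod_univ_sum]

theorem norm_term {r : ℕ} (S : Fin r → Finset (Fin N)) (x : UnitAddTorus (Fin N)) :
    ‖∏ j, ∏ i ∈ S j, ev x i‖ = 1 := by
  rw [norm_prod]
  refine Finset.prod_eq_one fun j _ => ?_
  rw [norm_prod]
  exact Finset.prod_eq_one fun i _ => norm_ev x i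

theorem norm_chiW_le {r : ℕ} (k : Fin r → ℕ) (x : UnitAddTorus (Fin N)) :
    ‖chiW k x‖ ≤ (idx N k).card := by
  rw [chiW_eq_sum]
  refine (norm_sum_le _ _).trans ?_
  rw [Finset.sum_congr rfl fun S _ => norm_term S x]
  simp

end Pool.Agent.Y139.ID
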