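import Pool.Agent.Y139.ID.Defs
import Pool.Agent.Y139.ID.Real
import Pool.Agent.Y139.IM.Link

/-! The sizes of the `L`-functions and the mean values of the traces. -/

set_option autoImplicit false

namespace Pool.Agent.Y139.ID

open Complex Filter Topology NumberField IsDedekindDomain
  Pool.Agent.W401.Cheb Pool.Agent.W540.BE Pool.Agent.W353.L1 Polynomial
open Pool.Agent.H341R2 (lam lam_tendsto)
open Pool.Agent.Y139.SM (EP_cofinite one_artin RR_one)
open Pool.Agent.Y139.IM (mean mean_one mean_eq good_eps)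

section
variable {K : Type} [Field K] [NumberField K] {N : ℕ}
  {θ : HeightOneSpectrum (𝓞 K) → UnitAddTorus (Fin N)}

theorem det_one (c : ℂ) (g : GK K) :
    LinearMap.det (1 - c • (1 : Representation ℂ (GK K) (Fin 1 → ℂ)) g) = 1 - c := by
  have h1 : (1 : Representation ℂ (GK K) (Fin 1 → ℂ)) g = 1 := rfl
  have h2 : (1 - c • (1 : Module.End ℂ (Fin 1 → ℂ))) = (1 - c) • (1 : Module.End ℂ (Fin 1 → ℂ)) :=
    ((sub_smul (1 : ℂ) c (1 : Module.End ℂ (Fin 1 → ℂ))).trans (by rw [one_smul])).symm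
  rw [h1, h2, LinearMap.det_smul, map_one]
  simp

theorem word_size (hθ : IsSelfDual θ) {r : ℕ} (k : Fin r → ℕ) (B : HeightOneSpectrum (𝓞 K) → ℂ[X])
    (hB : IsWordSystem θ k B) :
    (∀ᶠ ε : ℝ in 𝓝[>] 0, LProd B (1 + ε) ≠ 0) ∧
    Tendsto (fun ε : ℝ => mean (fun v => (chiW k (θ v)).re) ε - lsize B ε) (𝓝[>] 0) (𝓝 0) := by
  classical
  choose σ hσ using exists_isFrob (F := K)
  set b := (idx N k).card with hb
  set e : Fin b ≃ idx N k := (idx N k).equivFin.symm with he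
  set α : HeightOneSpectrum (𝓞 K) → Fin b → ℂ := fun v j => ∏ l, ∏ i ∈ (e j).1 l, ev (θ v) i with hα
  have hnorm : ∀ v j, ‖α v j‖ = (nm K v : ℝ) ^ (0 : ℝ) := fun v j => by
    rw [Real.rpow_zero]
    exact norm_term _ _
  have hsum : ∀ v, ∑ j, α v j = chiW k (θ v) := by
    intro v
    rw [chiW_eq_sum, hα]
    simp only
    rw [Equiv.sum_comp e (fun S : idx N k => ∏ l, ∏ i ∈ S.1 l, ev (θ v) i)]
    exact Finset.sum_coe_sort (idx N k) (fun S => ∏ l, ∏ i ∈ S l, ev (θ v) i)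
  have hreal : ∀ᶠ v in cofinite, (∑ j, α v j).im = 0 := hθ.mono fun v hv => by
    rw [hsum]
    exact im_chiW k hv
  have h1 : (((0 : ℝ) : ℂ) + 1 + ((0 : ℝ) : ℂ) * I) = 1 := by simp
  have hsz := size_corr (0 : ℝ) α (Eventually.of_forall hnorm) hreal ⊤
    (1 : Representation ℂ (GK K) (Fin 1 → ℂ)) (fun _ _ => rfl) 0 B
    (hB.1.mono fun v hv g hg z => by
      rw [hv z]
      have h2 : ∀ j, LinearMap.det (1 - (α v j * z) •
          (1 : Representation ℂ (GK K) (Fin 1 → ℂ)) g⁻¹) = 1 - α v j * z := fun j => det_one _ _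
      rw [Finset.prod_congr rfl fun j _ => h2 j]
      rw [Equiv.prod_comp e (fun S : idx N k => 1 - (∏ l, ∏ i ∈ S.1 l, ev (θ v) i) * z)]
      exact (Finset.prod_coe_sort (idx N k)
        (fun S => 1 - (∏ l, ∏ i ∈ S l, ev (θ v) i) * z)).symm)
    (by
      rw [h1]
      exact hB.2) (LProd B) (fun s _ => rfl) σ hσ
  simp only [h1] at hsz
  refine ⟨hsz.1, ?_⟩
  have htr : ∀ᶠ v in cofinite, tr (0 : ℝ) α v = (chiW k (θ v)).re := by
    filter_upwards [hreal] with v h2
    have h5 := tr_eq (w := (0 : ℝ)) (α := α) (v := v) (hnorm v) h2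
    rw [hsum] at h5
    simp only [Complex.ofReal_zero, neg_zero, Complex.cpow_zero, mul_one] at h5
    rw [← h5, Complex.ofReal_re]
  have hcong := EP_cofinite (K := K)
    (φ := fun v => (chiW k (θ v)).re) (ψ := fun v => tr (0 : ℝ) α v)
    (B := (b : ℝ)) (C := (b : ℝ))
    (fun v => (Complex.abs_re_le_norm _).trans (norm_chiW_le k (θ v)))
    (fun v => abs_tr_le _ _ _)
    (htr.mono fun v hv => hv.symm)
  have h8 := hcong.add hsz.2
  rw [add_zero] at h8
  refine h8.congr fun ε => ?_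
  have e : (fun v => ((tr (0 : ℝ) α v : ℂ) *
      ((1 : Representation ℂ (GK K) (Fin 1 → ℂ)).character (σ v)⁻¹ * zz 0 v)).re) =
      fun v => tr (0 : ℝ) α v := by
    funext v
    have h9 := RR_one (K := K) σ v
    rw [Complex.re_ofReal_mul]
    have h10 : ((1 : Representation ℂ (GK K) (Fin 1 → ℂ)).character (σ v)⁻¹ * zz 0 v).re = 1 := h9
    rw [h10, mul_one]
  rw [e]
  unfold lsize mean
  ring

end

end Pool.Agent.Y139.ID
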