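import Pool.Agent.Y139.ID.Link
import Pool.Agent.Y139.ID.Cpt
import Pool.Agent.Y139.ID.Count

/-! The law of the Frobenius classes. -/

set_option autoImplicit false

namespace Pool.Agent.Y139.ID

open Complex Filter Topology NumberField IsDedekindDomain MeasureTheory
  Pool.Agent.W401.Cheb Pool.Agent.W540.BE Pool.Agent.W353.L1 Polynomial
open Pool.Agent.H341R2 (lam lam_tendsto)
open Pool.Agent.Y139.SM (EP_cofinite one_artin RR_one)
open Pool.Agent.Y139.IM (mean mean_one mean_eq good_eps)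

section
variable {K : Type} [Field K] [NumberField K] {N : ℕ}
  {θ : HeightOneSpectrum (𝓞 K) → UnitAddTorus (Fin N)}

/-- good values of `ε` -/
def Good (K : Type) [Field K] [NumberField K] (ε : ℝ) : Prop :=
  0 < ε ∧ 0 < lam ε ∧ 1 / 2 < mean (K := K) (fun _ => 1) ε ∧ mean (K := K) (fun _ => 1) ε < 2

theorem good_ev : ∀ᶠ ε : ℝ in 𝓝[>] 0, Good K ε := good_eps

/-- the total weight -/
noncomputable def tot (K : Type) [Field K] [NumberField K] (ε : ℝ) : ℝ :=
  ∑' v : HeightOneSpectrum (𝓞 K), (Ideal.absNorm v.asIdeal : ℝ) ^ (-(1 + ε))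

theorem tot_pos {ε : ℝ} (h : Good K ε) : 0 < tot K ε := by
  have h1 : (EP (nm K) ε fun _ => 1) = tot K ε := by
    unfold EP tot
    simp only [one_mul]
    rfl
  have h2 : mean (K := K) (fun _ => 1) ε = tot K ε / lam ε := by
    unfold mean
    rw [h1]
  have h3 := h.2.2.1
  rw [h2] at h3
  by_contra hneg
  push Not at hneg
  have := div_nonpos_of_nonpos_of_nonneg hneg h.2.1.le
  linarith

theorem summable_w {ε : ℝ} (h : 0 < ε) :
    Summable fun v : HeightOneSpectrum (𝓞 K) => (Ideal.absNorm v.asIdeal : ℝ) ^ (-(1 + ε)) :=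
  (normSys (F := K)).summable _ (by linarith)

/-- the weights -/
noncomputable def wt (ε : ℝ) (v : HeightOneSpectrum (𝓞 K)) : ℝ :=
  (Ideal.absNorm v.asIdeal : ℝ) ^ (-(1 + ε)) / tot K ε

theorem wt_nonneg {ε : ℝ} (h : Good K ε) (v : HeightOneSpectrum (𝓞 K)) : 0 ≤ wt ε v :=
  div_nonneg (Real.rpow_nonneg (Nat.cast_nonneg _) _) (tot_pos h).le

theorem hasSum_wt {ε : ℝ} (h : Good K ε) : HasSum (wt (K := K) ε) 1 := by
  have h1 := (summable_w (K := K) h.1).hasSum.div_const (tot K ε)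
  have h2 : (∑' v : HeightOneSpectrum (𝓞 K), (Ideal.absNorm v.asIdeal : ℝ) ^ (-(1 + ε))) / tot K ε = 1 :=
    div_self (tot_pos h).ne'
  rw [h2] at h1
  exact h1

theorem avg_eq {ε : ℝ} (φ : HeightOneSpectrum (𝓞 K) → ℝ) :
    avg φ ε = ∑' v, wt ε v * φ v := by
  unfold avg wt
  rw [← tsum_div_const]
  refine tsum_congr fun v => ?_
  unfold tot
  ring

theorem avg_le {ε : ℝ} (h : Good K ε) {φ : HeightOneSpectrum (𝓞 K) → ℝ} {C : ℝ}
    (hφ : ∀ v, |φ v| ≤ C) : |avg φ ε| ≤ C := by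
  rw [avg_eq]
  have hs := (hasSum_wt h)
  have h1 : ∀ v, ‖wt ε v * φ v‖ ≤ C * wt ε v := by
    intro v
    rw [norm_mul, Real.norm_eq_abs, Real.norm_eq_abs, abs_of_nonneg (wt_nonneg h v), mul_comm]
    exact mul_le_mul_of_nonneg_right (hφ v) (wt_nonneg h v)
  have h2 := tsum_of_norm_bounded (hs.mul_left C) h1
  rw [mul_one] at h2
  exact h2

theorem mean_avg {ε : ℝ} (h : Good K ε) (φ : HeightOneSpectrum (𝓞 K) → ℝ) :
    mean φ ε = avg φ ε * mean (K := K) (fun _ => 1) ε :=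
  mean_eq (by linarith [h.2.2.1]) h.2.1

theorem avg_sub {φ : HeightOneSpectrum (𝓞 K) → ℝ} {x : ℝ → ℝ} {C : ℝ} (hφ : ∀ v, |φ v| ≤ C)
    (h : Tendsto (fun ε => mean φ ε - x ε) (𝓝[>] 0) (𝓝 0)) :
    Tendsto (fun ε => avg φ ε - x ε) (𝓝[>] 0) (𝓝 0) := by
  have h1 : Tendsto (fun ε => avg φ ε - mean φ ε) (𝓝[>] 0) (𝓝 0) := by
    have h2 : Tendsto (fun ε => C * |1 - mean (K := K) (fun _ => 1) ε|) (𝓝[>] 0)
        (𝓝 (C * |1 - 1|)) := ((tendsto_const_nhds.sub (mean_one (K := K))).abs).const_mul C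
    rw [sub_self, abs_zero, mul_zero] at h2
    rw [tendsto_zero_iff_abs_tendsto_zero]
    refine squeeze_zero' (Eventually.of_forall fun ε => abs_nonneg _) ?_ h2
    filter_upwards [good_ev (K := K)] with ε hε
    have e : avg φ ε - mean φ ε = avg φ ε * (1 - mean (K := K) (fun _ => 1) ε) := by
      rw [mean_avg hε]
      ring
    simp only [Function.comp]
    rw [e, abs_mul]
    exact mul_le_mul_of_nonneg_right (avg_le hε hφ) (abs_nonneg _)
  have h3 := h1.add h
  rw [add_zero] at h3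
  exact h3.congr fun ε => by ring

theorem avg_cofinite {φ ψ : HeightOneSpectrum (𝓞 K) → ℝ} {B C : ℝ} (hφ : ∀ v, |φ v| ≤ B)
    (hψ : ∀ v, |ψ v| ≤ C) (h : ∀ᶠ v in cofinite, φ v = ψ v) :
    Tendsto (fun ε : ℝ => avg φ ε - avg ψ ε) (𝓝[>] 0) (𝓝 0) := by
  have h1 := EP_cofinite hφ hψ h
  have h2 := h1.div (mean_one (K := K)) one_ne_zero
  rw [zero_div] at h2
  refine h2.congr' ?_
  filter_upwards [good_ev (K := K)] with ε hε
  have e1 : EP (nm K) ε φ / lam ε = avg φ ε * mean (K := K) (fun _ => 1) ε := mean_avg hε φ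
  have e2 : EP (nm K) ε ψ / lam ε = avg ψ ε * mean (K := K) (fun _ => 1) ε := mean_avg hε ψ
  simp only [Pi.div_apply]
  rw [e1, e2, ← sub_mul, mul_div_assoc, div_self (by linarith [hε.2.2.1]), mul_one]

open Classical in
/-- the classes at the bad primes are replaced by `0` -/
noncomputable def fix (θ : HeightOneSpectrum (𝓞 K) → UnitAddTorus (Fin N))
    (v : HeightOneSpectrum (𝓞 K)) : UnitAddTorus (Fin N) :=
  if θ v ∈ SD N then θ v else 0

omit [NumberField K] in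
theorem fix_mem (θ : HeightOneSpectrum (𝓞 K) → UnitAddTorus (Fin N))
    (v : HeightOneSpectrum (𝓞 K)) : fix θ v ∈ SD N := by
  unfold fix
  split_ifs with h
  · exact h
  · exact zero_mem_SD

omit [NumberField K] in
theorem fix_eq (hθ : IsSelfDual θ) : ∀ᶠ v in cofinite, fix θ v = θ v :=
  hθ.mono fun v hv => by
    unfold fix
    rw [if_pos hv]

/-- the empirical measure -/
noncomputable def mu (θ : HeightOneSpectrum (𝓞 K) → UnitAddTorus (Fin N)) (ε : ℝ) :
    Measure (UnitAddTorus (Fin N)) := semp (wt ε) (fix θ)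

theorem mu_univ {ε : ℝ} (h : Good K ε) : mu θ ε Set.univ = 1 :=
  semp_univ (wt_nonneg h) (hasSum_wt h) _

theorem mu_sym (ε : ℝ) : SymSD (mu θ ε) := semp_sym _ (fix_mem θ)

theorem mu_integral {ε : ℝ} (h : Good K ε) {f : UnitAddTorus (Fin N) → ℝ} (hf : Continuous f)
    (hs : SymFun f) : ∫ x, (f x : ℂ) ∂(mu θ ε) = ((avg (fun v => f (fix θ v)) ε : ℝ) : ℂ) := by
  have h1 : SymFun fun x => (f x : ℂ) := fun σ x => by
    have := hs σ x
    simp only [this]
  rw [mu, semp_integral (wt_nonneg h) (hasSum_wt h) _ (by fun_prop) h1, avg_eq]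
  push_cast
  rfl

theorem mu_chiW {ε : ℝ} (h : Good K ε) {r : ℕ} (k : Fin r → ℕ) : ∫ x, chiW k x ∂(mu θ ε) =
    ((avg (fun v => (chiW k (fix θ v)).re) ε : ℝ) : ℂ) := by
  rw [mu, semp_integral (wt_nonneg h) (hasSum_wt h) _ (continuous_chiW k) (symFun_chiW k), avg_eq]
  push_cast
  refine tsum_congr fun v => ?_
  rw [re_chiW k (fix_mem θ v)]

theorem bounded_of_cont {f : UnitAddTorus (Fin N) → ℝ} (hf : Continuous f) :
    ∃ C, ∀ x, |f x| ≤ C := by
  obtain ⟨C, hC⟩ := isCompact_univ.exists_bound_of_continuousOn (f := f) hf.continuousOn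
  exact ⟨C, fun x => hC x (Set.mem_univ x)⟩

theorem avg_fix (hθ : IsSelfDual θ) {f : UnitAddTorus (Fin N) → ℝ} (hf : Continuous f) :
    Tendsto (fun ε => avg (fun v => f (fix θ v)) ε - avg (fun v => f (θ v)) ε) (𝓝[>] 0) (𝓝 0) := by
  obtain ⟨C, hC⟩ := bounded_of_cont hf
  exact avg_cofinite (fun v => hC _) (fun v => hC _) ((fix_eq hθ).mono fun v hv => by rw [hv])

theorem isWordSystem_fix (hθ : IsSelfDual θ) {r : ℕ} {k : Fin r → ℕ}
    {B : HeightOneSpectrum (𝓞 K) → ℂ[X]} (hB : IsWordSystem θ k B) : IsWordSystem (fix θ) k B := by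
  refine ⟨?_, hB.2⟩
  filter_upwards [hB.1, fix_eq hθ] with v h1 h2 z
  rw [h1 z, h2]

/-- the moments of the empirical measure and the sizes of the `L`-functions -/
theorem avg_size (hθ : IsSelfDual θ) {r : ℕ} {k : Fin r → ℕ}
    {B : HeightOneSpectrum (𝓞 K) → ℂ[X]} (hB : IsWordSystem θ k B) :
    Tendsto (fun ε => avg (fun v => (chiW k (fix θ v)).re) ε - lsize B ε) (𝓝[>] 0) (𝓝 0) := by
  have h1 : IsSelfDual (fix θ) := Eventually.of_forall (fix_mem θ)
  have h2 := (word_size h1 k B (isWordSystem_fix hθ hB)).2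
  exact avg_sub (C := (idx N k).card)
    (fun v => (Complex.abs_re_le_norm _).trans (norm_chiW_le k _)) h2

/-- **The law exists and is algebraic.** -/
theorem law_exists (hθ : IsSelfDual θ) (hI : IntegralOrders θ) :
    ∃ ν : Measure (UnitAddTorus (Fin N)), AlgebraicLaw N ν ∧
      ∀ f : UnitAddTorus (Fin N) → ℝ, Continuous f → SymFun f →
        Tendsto (avg fun v => f (θ v)) (𝓝[>] 0) (𝓝 (∫ x, f x ∂ν)) := by
  -- the parameters
  have hne : (𝓝[>] (0 : ℝ)).NeBot := inferInstance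
  set ι := {ε : ℝ // Good K ε} with hι
  set l : Filter ι := Filter.comap Subtype.val (𝓝[>] (0 : ℝ)) with hl
  have hlne : l.NeBot := by
    rw [hl]
    refine Filter.comap_neBot fun t ht => ?_
    obtain ⟨ε, h1, h2⟩ := ((good_ev (K := K)).and ht).exists
    exact ⟨⟨ε, h1⟩, h2⟩
  have hcomap : ∀ {g : ℝ → ℂ} {z : ℂ}, Tendsto g (𝓝[>] 0) (𝓝 z) →
      Tendsto (fun i : ι => g i.1) l (𝓝 z) := fun h => h.comp tendsto_comap
  have hback : ∀ {g : ℝ → ℂ} {z : ℂ}, Tendsto (fun i : ι => g i.1) l (𝓝 z) →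
      Tendsto g (𝓝[>] 0) (𝓝 z) := by
    intro g z h s hs
    have h1 := h hs
    rw [hl, Filter.mem_map, Filter.mem_comap] at h1
    obtain ⟨t, ht, hts⟩ := h1
    rw [Filter.mem_map]
    filter_upwards [ht, good_ev (K := K)] with ε h2 h3
    exact hts (show (⟨ε, h3⟩ : ι) ∈ Subtype.val ⁻¹' t from h2)
  obtain ⟨ν, hν, hlim⟩ := conv_law (l := l) (fun i : ι => mu θ i.1) (fun i => mu_univ i.2)
    (fun i => mu_sym i.1) (fun r k _ => by
      obtain ⟨B, n, hB, hn⟩ := hI r k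
      refine ⟨n, ?_⟩
      have h1 := (avg_size hθ hB).add hn
      rw [zero_add] at h1
      have h2 : Tendsto (avg fun v => (chiW k (fix θ v)).re) (𝓝[>] 0) (𝓝 (n : ℝ)) :=
        h1.congr fun ε => by ring
      have h3 : Tendsto (fun ε => ((avg (fun v => (chiW k (fix θ v)).re) ε : ℝ) : ℂ)) (𝓝[>] 0)
          (𝓝 (n : ℂ)) := by
        have := (Complex.continuous_ofReal.tendsto _).comp h2
        simpa [Function.comp_def] using this
      refine (hcomap h3).congr fun i => ?_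
      rw [mu_chiW i.2])
  refine ⟨ν, hν, fun f hf hs => ?_⟩
  have h1 := hlim (fun x => (f x : ℂ)) (by fun_prop)
  have h2 : Tendsto (fun ε => ((avg (fun v => f (fix θ v)) ε : ℝ) : ℂ)) (𝓝[>] 0)
      (𝓝 (∫ x, (f x : ℂ) ∂ν)) := by
    refine hback ?_
    refine h1.congr fun i => ?_
    rw [mu_integral i.2 hf hs]
  rw [integral_complex_ofReal] at h2
  have h3 : Tendsto (fun ε => avg (fun v => f (fix θ v)) ε) (𝓝[>] 0) (𝓝 (∫ x, f x ∂ν)) := by
    have := (Complex.continuous_re.tendsto _).comp h2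
    simpa [Function.comp_def] using this
  have h4 := h3.sub (avg_fix hθ hf)
  rw [sub_zero] at h4
  exact h4.congr fun ε => by ring

end

/-- **Finite level, without hypothesis.** -/
theorem finite_level (N : ℕ) {m : ℕ} (F : Fin m → UnitAddTorus (Fin N) → ℝ)
    (hF : ∀ i, Continuous (F i)) (hS : ∀ i, SymFun (F i)) {δ : ℝ} (hδ : 0 < δ) :
    ∃ (η : ℝ) (R : ℕ), 0 < η ∧ ∀ (K : Type) [Field K] [NumberField K]
      (θ : HeightOneSpectrum (𝓞 K) → UnitAddTorus (Fin N))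
      (B : ∀ r : ℕ, (Fin r → ℕ) → HeightOneSpectrum (𝓞 K) → ℂ[X]), IsSelfDual θ →
      (∀ (r : ℕ) (k : Fin r → ℕ), r ≤ R → (∀ j, k j ≤ N) → IsWordSystem θ k (B r k)) →
      ∀ᶠ ε : ℝ in 𝓝[>] 0,
        (∃ (r : ℕ) (k : Fin r → ℕ), r ≤ R ∧ (∀ j, k j ≤ N) ∧
          ∀ n : ℤ, η < |lsize (B r k) ε - n|) ∨
        ∃ ν : Measure (UnitAddTorus (Fin N)), AlgebraicLaw N ν ∧
          ∀ i, |avg (fun v => F i (θ v)) ε - ∫ x, F i x ∂ν| ≤ δ := by
  obtain ⟨η, R, hη, hmain⟩ := near_law N (fun i x => (F i x : ℂ)) (fun i => by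
    have := hF i
    fun_prop) (half_pos hδ)
  refine ⟨η / 2, R, half_pos hη, fun K _ _ θ B hθ hB => ?_⟩
  -- finitely many words
  have hfin : ∀ᶠ ε : ℝ in 𝓝[>] 0, ∀ (r : Fin (R + 1)) (k : Fin r → Fin (N + 1)),
      |avg (fun v => (chiW (fun j => (k j : ℕ)) (fix θ v)).re) ε -
        lsize (B r fun j => (k j : ℕ)) ε| < η / 2 := by
    rw [Filter.eventually_all]
    intro r
    rw [Filter.eventually_all]
    intro k
    have h1 := avg_size hθ (hB r (fun j => (k j : ℕ)) (by omega) fun j => by omega)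
    have h2 := h1.abs
    rw [abs_zero] at h2
    exact h2.eventually_lt_const (half_pos hη)
  have hfix : ∀ᶠ ε : ℝ in 𝓝[>] 0, ∀ i,
      |avg (fun v => F i (fix θ v)) ε - avg (fun v => F i (θ v)) ε| < δ / 2 := by
    rw [Filter.eventually_all]
    intro i
    have h2 := (avg_fix hθ (hF i)).abs
    rw [abs_zero] at h2
    exact h2.eventually_lt_const (half_pos hδ)
  filter_upwards [hfin, hfix, good_ev (K := K)] with ε h1 h2 h3
  by_cases hcase : ∃ (r : ℕ) (k : Fin r → ℕ), r ≤ R ∧ (∀ j, k j ≤ N) ∧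
      ∀ n : ℤ, η / 2 < |lsize (B r k) ε - n|
  · exact Or.inl hcase
  · right
    push Not at hcase
    obtain ⟨ν, hν, hclose⟩ := hmain (mu θ ε) (mu_univ h3) (mu_sym ε) (fun r k hr hk => by
      obtain ⟨n, hn⟩ := hcase r k hr hk
      refine ⟨n, ?_⟩
      have h4 := h1 ⟨r, by omega⟩ (fun j => ⟨k j, by have := hk j; omega⟩)
      have h5 : |avg (fun v => (chiW k (fix θ v)).re) ε - lsize (B r k) ε| < η / 2 := h4
      rw [mu_chiW h3, ← Complex.ofReal_intCast, ← Complex.ofReal_sub, Complex.norm_real,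
        Real.norm_eq_abs]
      calc |avg (fun v => (chiW k (fix θ v)).re) ε - n|
          = |(avg (fun v => (chiW k (fix θ v)).re) ε - lsize (B r k) ε) +
            (lsize (B r k) ε - n)| := by congr 1; ring
        _ ≤ |avg (fun v => (chiW k (fix θ v)).re) ε - lsize (B r k) ε| +
            |lsize (B r k) ε - n| := abs_add_le _ _
        _ ≤ η := by linarith)
    refine ⟨ν, hν, fun i => ?_⟩
    have h4 := hclose i
    rw [mu_integral h3 (hF i) (hS i), integral_complex_ofReal, ← Complex.ofReal_sub,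
      Complex.norm_real, Real.norm_eq_abs] at h4
    have h5 := h2 i
    calc |avg (fun v => F i (θ v)) ε - ∫ x, F i x ∂ν|
        = |-(avg (fun v => F i (fix θ v)) ε - avg (fun v => F i (θ v)) ε) +
          (avg (fun v => F i (fix θ v)) ε - ∫ x, F i x ∂ν)| := by congr 1; ring
      _ ≤ |avg (fun v => F i (fix θ v)) ε - avg (fun v => F i (θ v)) ε| +
          |avg (fun v => F i (fix θ v)) ε - ∫ x, F i x ∂ν| := by
          refine (abs_add_le _ _).trans ?_
          rw [abs_neg]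
      _ ≤ δ := by linarith

end Pool.Agent.Y139.ID
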