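import Pool.Agent.Y139.ID.Law

/-! The empirical measures. -/

set_option autoImplicit false

namespace Pool.Agent.Y139.ID

open Filter Topology Complex MeasureTheory UnitAddTorus

variable {N : ℕ} {V : Type*}

theorem SD_perm {x : UnitAddTorus (Fin N)} (hx : x ∈ SD N) (σ : Equiv.Perm (Fin N)) :
    (fun i => x (σ i)) ∈ SD N := by
  obtain ⟨τ, hτ⟩ := hx
  refine ⟨(σ.trans τ).trans σ.symm, fun j => ?_⟩
  simp [hτ]

/-- symmetric functions -/
def SymFun {E : Type*} (f : UnitAddTorus (Fin N) → E) : Prop :=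
  ∀ (σ : Equiv.Perm (Fin N)) (x : UnitAddTorus (Fin N)), f (fun i => x (σ i)) = f x

/-- the weighted sum of point masses -/
noncomputable def emp (w : V → ℝ) (p : V → UnitAddTorus (Fin N)) : Measure (UnitAddTorus (Fin N)) :=
  Measure.sum fun v => ENNReal.ofReal (w v) • Measure.dirac (p v)

theorem emp_univ {w : V → ℝ} (hw : ∀ v, 0 ≤ w v) (h1 : HasSum w 1)
    (p : V → UnitAddTorus (Fin N)) : emp w p Set.univ = 1 := by
  unfold emp
  rw [Measure.sum_apply _ MeasurableSet.univ]
  simp only [Measure.smul_apply, measure_univ, smul_eq_mul, mul_one]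
  rw [← ENNReal.ofReal_tsum_of_nonneg hw h1.summable, h1.tsum_eq, ENNReal.ofReal_one]

theorem emp_dual (w : V → ℝ) {p : V → UnitAddTorus (Fin N)} (hp : ∀ v, p v ∈ SD N) :
    emp w p (SD N)ᶜ = 0 := by
  unfold emp
  rw [Measure.sum_apply _ isClosed_SD.measurableSet.compl]
  simp only [Measure.smul_apply, smul_eq_mul]
  rw [ENNReal.tsum_eq_zero]
  intro v
  rw [Measure.dirac_apply' _ isClosed_SD.measurableSet.compl]
  simp [hp v]

theorem emp_integral {w : V → ℝ} (hw : ∀ v, 0 ≤ w v) (h1 : HasSum w 1)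
    (p : V → UnitAddTorus (Fin N)) {f : UnitAddTorus (Fin N) → ℂ} (hf : Continuous f) :
    ∫ x, f x ∂(emp w p) = ∑' v, (w v : ℂ) * f (p v) := by
  have hfin : IsFiniteMeasure (emp w p) := ⟨by rw [emp_univ hw h1]; exact ENNReal.one_lt_top⟩
  have hint := integrable_cont (emp w p) hf
  unfold emp at hint ⊢
  rw [integral_sum_measure hint]
  refine tsum_congr fun v => ?_
  rw [integral_smul_measure, integral_dirac, ENNReal.toReal_ofReal (hw v), Complex.real_smul]

/-- the symmetrised measure -/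
noncomputable def semp (w : V → ℝ) (p : V → UnitAddTorus (Fin N)) : Measure (UnitAddTorus (Fin N)) :=
  (N.factorial : ENNReal)⁻¹ • ∑ σ : Equiv.Perm (Fin N), (emp w p).map fun x i => x (σ i)

theorem meas_perm (σ : Equiv.Perm (Fin N)) :
    Measurable fun (x : UnitAddTorus (Fin N)) (i : Fin N) => x (σ i) :=
  (continuous_perm σ).measurable

theorem semp_apply (w : V → ℝ) (p : V → UnitAddTorus (Fin N)) {s : Set (UnitAddTorus (Fin N))}
    (hs : MeasurableSet s) : semp w p s =
      (N.factorial : ENNReal)⁻¹ * ∑ σ : Equiv.Perm (Fin N), emp w p ((fun x i => x (σ i)) ⁻¹' s) := by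
  unfold semp
  rw [Measure.smul_apply, Measure.finsetSum_apply, smul_eq_mul]
  congr 1
  refine Finset.sum_congr rfl fun σ _ => ?_
  rw [Measure.map_apply (meas_perm σ) hs]

theorem semp_univ {w : V → ℝ} (hw : ∀ v, 0 ≤ w v) (h1 : HasSum w 1)
    (p : V → UnitAddTorus (Fin N)) : semp w p Set.univ = 1 := by
  rw [semp_apply _ _ MeasurableSet.univ]
  simp only [Set.preimage_univ, emp_univ hw h1]
  rw [Finset.sum_const, Finset.card_univ, Fintype.card_perm, Fintype.card_fin, nsmul_eq_mul, mul_one]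
  exact ENNReal.inv_mul_cancel (by exact_mod_cast N.factorial_ne_zero) (ENNReal.natCast_ne_top _)

theorem semp_sym (w : V → ℝ) {p : V → UnitAddTorus (Fin N)} (hp : ∀ v, p v ∈ SD N) :
    SymSD (semp w p) := by
  constructor
  · intro τ
    refine Measure.ext fun s hs => ?_
    rw [Measure.map_apply (meas_perm τ) hs, semp_apply _ _ (meas_perm τ hs), semp_apply _ _ hs]
    congr 1
    refine Fintype.sum_equiv (Equiv.mulRight τ) _ _ fun σ => ?_
    rfl
  · rw [semp_apply _ _ isClosed_SD.measurableSet.compl]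
    rw [mul_eq_zero]
    right
    refine Finset.sum_eq_zero fun σ _ => ?_
    refine measure_mono_null ?_ (emp_dual w hp)
    intro x hx hx'
    exact hx (SD_perm hx' σ)

theorem semp_integral {w : V → ℝ} (hw : ∀ v, 0 ≤ w v) (h1 : HasSum w 1)
    (p : V → UnitAddTorus (Fin N)) {f : UnitAddTorus (Fin N) → ℂ} (hf : Continuous f)
    (hs : SymFun f) : ∫ x, f x ∂(semp w p) = ∑' v, (w v : ℂ) * f (p v) := by
  have hfin : IsFiniteMeasure (emp w p) := ⟨by rw [emp_univ hw h1]; exact ENNReal.one_lt_top⟩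
  unfold semp
  have hfin2 : ∀ σ : Equiv.Perm (Fin N), IsFiniteMeasure ((emp w p).map fun x i => x (σ i)) :=
    fun σ => Measure.isFiniteMeasure_map _ _
  rw [integral_smul_measure, integral_finsetSum_measure fun σ _ => by
    have := hfin2 σ
    exact integrable_cont _ hf]
  have h2 : ∀ σ : Equiv.Perm (Fin N), ∫ x, f x ∂((emp w p).map fun x i => x (σ i)) =
      ∫ x, f x ∂(emp w p) := by
    intro σ
    rw [integral_map (meas_perm σ).aemeasurable hf.aestronglyMeasurable]
    exact integral_congr_ae (Eventually.of_forall fun x => hs σ x)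
  simp only [h2]
  rw [Finset.sum_const, Finset.card_univ, Fintype.card_perm, Fintype.card_fin,
    emp_integral hw h1 p hf, nsmul_eq_mul, ENNReal.toReal_inv, ENNReal.toReal_natCast]
  rw [Complex.real_smul]
  have h0 : (N.factorial : ℂ) ≠ 0 := by exact_mod_cast N.factorial_ne_zero
  push_cast
  rw [← mul_assoc, inv_mul_cancel₀ h0, one_mul]

end Pool.Agent.Y139.ID
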