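import Pool.Agent.Y139.ID.PD

/-! The decomposition of an integer valued positive definite function. -/

set_option autoImplicit false

namespace Pool.Agent.Y139.ID

open Filter Topology Complex

section rep
variable {G H : Type*} [AddCommGroup G] [NormedAddCommGroup H] [InnerProductSpace ℂ H]
  [CompleteSpace H] {T : G → H →L[ℂ] H} (hT : URep T) {ξ : H}
  (hξ : ∀ a, ∃ n : ℤ, inner ℂ ξ (T a ξ) = n)

/-- only finitely many of the vectors `T_a z` are not orthogonal to `z` -/
def FinNear (T : G → H →L[ℂ] H) (z : H) : Prop :=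
  Set.Finite {w : H | (∃ a, w = T a z) ∧ inner ℂ z w ≠ 0}

include hT hξ

theorem finNear_of_min {z : H} (hz : Orb T ξ z)
    (hmin : ∀ w, Orb T ξ w → w ≠ 0 → ‖z‖ ≤ ‖w‖) : FinNear T z := by
  by_contra hinf
  unfold FinNear at hinf
  set S : Set H := {w : H | (∃ a, w = T a z) ∧ inner ℂ z w ≠ 0} with hS
  have hSi : S.Infinite := hinf
  have : Infinite S := hSi.to_subtype
  set U : Ultrafilter S := Filter.hyperfilter S with hU
  have hnorm : ∀ i : S, ‖(i : H)‖ = ‖z‖ := by
    rintro ⟨i, ⟨a, rfl⟩, -⟩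
    exact hT.norm a z
  obtain ⟨w, hw⟩ := exists_wlim U (fun i : S => (i : H)) (C := ‖z‖) fun i => (hnorm i).le
  choose a ha using fun i : S => i.2.1
  have hOw : Orb T ξ w := by
    refine orb_lim hT hz (g := (U : Filter S).map a) fun y => ?_
    rw [Filter.tendsto_map'_iff]
    refine (hw y).congr fun i => ?_
    simp only [Function.comp]
    rw [← ha i]
  have hOi : ∀ i : S, Orb T ξ (i : H) := fun i => by
    rw [ha i]
    exact orb_trans hT hz _
  have h1 : (1 : ℝ) ≤ ‖inner ℂ w z‖ := by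
    refine ge_of_tendsto (hw z).norm (Eventually.of_forall fun i => ?_)
    obtain ⟨n, hn⟩ := int_orb hT hξ (hOi i) hz
    have h2 : inner ℂ (i : H) z ≠ 0 := by
      intro h0
      exact i.2.2 (by rw [← inner_conj_symm, h0, map_zero])
    rw [hn] at h2 ⊢
    have h3 : n ≠ 0 := by
      rintro rfl
      exact h2 (by simp)
    have h4 : (1 : ℤ) ≤ |n| := Int.one_le_abs h3
    rw [Complex.norm_intCast]
    exact_mod_cast h4
  have hw0 : w ≠ 0 := by
    rintro rfl
    rw [inner_zero_left, norm_zero] at h1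
    linarith
  have h2 : ‖w‖ ≤ ‖z‖ := by
    have : (U : Filter S).NeBot := U.neBot
    exact hw.norm_le fun i => (hnorm i).le
  have h3 : ‖w‖ = ‖z‖ := le_antisymm h2 (hmin w hOw hw0)
  have h4 := hw.strong fun i => (hnorm i).trans h3.symm
  have h5 : ∀ᶠ i : S in (U : Filter S), ‖(i : H) - w‖ < 1 / 2 :=
    h4.eventually_lt_const (by norm_num)
  have h6 : {i : S | ‖(i : H) - w‖ < 1 / 2}.Infinite := by
    intro hfin
    have h7 : {i : S | ‖(i : H) - w‖ < 1 / 2}ᶜ ∈ (U : Filter S) :=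
      Filter.hyperfilter_le_cofinite (by simpa using hfin)
    have h8 := Filter.inter_mem h5 h7
    have h9 : {i : S | ‖(i : H) - w‖ < 1 / 2} ∩ {i : S | ‖(i : H) - w‖ < 1 / 2}ᶜ = ∅ :=
      Set.inter_compl_self _
    rw [show ({x : S | ‖(x : H) - w‖ < 1 / 2} ∩ {i : S | ‖(i : H) - w‖ < 1 / 2}ᶜ) = ∅ from h9] at h8
    exact U.empty_notMem h8
  obtain ⟨i, hi, j, hj, hij⟩ := h6.nontrivial
  have hi : ‖(i : H) - w‖ < 1 / 2 := hi
  have hj : ‖(j : H) - w‖ < 1 / 2 := hj
  apply hij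
  apply Subtype.ext
  refine eq_of_close hT hξ (hOi i) (hOi j) ?_ ((hnorm i).trans (hnorm j).symm)
  calc ‖(i : H) - j‖ = ‖((i : H) - w) - ((j : H) - w)‖ := by congr 1; abel
    _ ≤ ‖(i : H) - w‖ + ‖(j : H) - w‖ := norm_sub_le _ _
    _ < 1 := by linarith

/-- a piece can be split off -/
theorem split (h0 : ξ ≠ 0) : ∃ η : H, η ≠ 0 ∧ (∀ a, ∃ n : ℤ, inner ℂ η (T a η) = (n : ℂ)) ∧
    FinNear T η ∧ ∀ c, inner ℂ (T c η) (ξ - η) = 0 := by
  classical
  have hex : ∃ n : ℕ, ∃ x, Orb T ξ x ∧ x ≠ 0 ∧ ‖x‖ ^ 2 = n := by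
    obtain ⟨n, hn⟩ := norm_orb hT hξ (orb_self hT ξ)
    exact ⟨n, ξ, orb_self hT ξ, h0, hn⟩
  obtain ⟨x, hx, hx0, hxn⟩ := Nat.find_spec hex
  have hmin : ∀ w, Orb T ξ w → w ≠ 0 → ‖x‖ ≤ ‖w‖ := by
    intro w hw hw0
    obtain ⟨n, hn⟩ := norm_orb hT hξ hw
    have h1 : Nat.find hex ≤ n := Nat.find_min' hex ⟨w, hw, hw0, hn⟩
    have h2 : ‖x‖ ^ 2 ≤ ‖w‖ ^ 2 := by
      rw [hxn, hn]
      exact_mod_cast h1
    exact le_of_sq_le_sq h2 (norm_nonneg _)
  obtain ⟨f, hf, hfx⟩ := hx
  set U : Ultrafilter G := Ultrafilter.of f with hU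
  have hUf : (U : Filter G) ≤ f := Ultrafilter.of_le f
  have hUx : WLim (fun a => T a ξ) (U : Filter G) x := fun y => (hfx y).mono_left hUf
  have hx : Orb T ξ x := ⟨f, hf, hfx⟩
  obtain ⟨η, hη⟩ := exists_wlim U (fun a => T (-a) x) (C := ‖x‖) fun a => (hT.norm _ _).le
  have hOη : Orb T ξ η := by
    refine orb_lim hT hx (g := (U : Filter G).map Neg.neg) fun y => ?_
    rw [Filter.tendsto_map'_iff]
    exact hη y
  -- the scalar products with the translates of `ξ`
  have h1 : ∀ c, inner ℂ (T c η) ξ = inner ℂ (T c x) x := by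
    intro c
    have h2 : Tendsto (fun a => inner ℂ (T (-a) x) (T (-c) ξ)) (U : Filter G)
        (𝓝 (inner ℂ (T c η) ξ)) := by
      rw [hT.adj c η ξ]
      exact hη _
    have h3 : Tendsto (fun a => inner ℂ (T (-a) x) (T (-c) ξ)) (U : Filter G)
        (𝓝 (inner ℂ (T c x) x)) := by
      have h4 := (Complex.continuous_conj.tendsto _).comp (hUx (T c x))
      rw [inner_conj_symm] at h4
      refine h4.congr fun a => ?_
      simp only [Function.comp]
      rw [inner_conj_symm, hT.adj c x, hT.adj (-a) x, ← hT.add, ← hT.add, neg_neg]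
      congr 2
      abel_nf
    exact tendsto_nhds_unique h2 h3
  have h2 : inner ℂ η ξ = ((‖x‖ ^ 2 : ℝ) : ℂ) := by
    have h3 := h1 0
    rw [hT.zero, hT.zero, inner_self_eq_norm_sq_to_K] at h3
    rw [h3]
    simp
  have hη0 : η ≠ 0 := by
    rintro rfl
    rw [inner_zero_left] at h2
    have h3 : ‖x‖ ^ 2 = 0 := by exact_mod_cast h2.symm
    exact hx0 (norm_eq_zero.1 (by simpa using h3))
  have hnη : ‖x‖ = ‖η‖ := by
    refine le_antisymm (hmin η hOη hη0) ?_
    exact hη.norm_le fun a => (hT.norm _ _).le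
  have hstrong : Tendsto (fun a => T (-a) x) (U : Filter G) (𝓝 η) :=
    tendsto_iff_norm_sub_tendsto_zero.2 (hη.strong fun a => (hT.norm _ _).trans hnη)
  have h3 : ∀ c, inner ℂ (T c η) η = inner ℂ (T c x) x := by
    intro c
    have h4 : Tendsto (fun a => inner ℂ (T c (T (-a) x)) (T (-a) x)) (U : Filter G)
        (𝓝 (inner ℂ (T c η) η)) :=
      (((T c).continuous.tendsto _).comp hstrong).inner hstrong
    refine tendsto_nhds_unique h4 (tendsto_const_nhds.congr fun a => ?_)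
    rw [hT.comm c (-a) x, hT.inner_eq]
  refine ⟨η, hη0, fun a => int_orb hT hξ hOη (orb_trans hT hOη a), ?_, fun c => ?_⟩
  · refine finNear_of_min hT hξ hOη fun w hw hw0 => ?_
    rw [← hnη]
    exact hmin w hw hw0
  · rw [inner_sub_right, h1, h3, sub_self]

omit hξ in
/-- **The structure of integer valued positive definite functions.** -/
theorem decomp (n : ℕ) : ∀ ξ : H, (∀ a, ∃ n : ℤ, inner ℂ ξ (T a ξ) = (n : ℂ)) → ‖ξ‖ ^ 2 = n →
    ∃ (r : ℕ) (η : Fin r → H), r ≤ n ∧
      (∀ a, inner ℂ ξ (T a ξ) = ∑ j, inner ℂ (η j) (T a (η j))) ∧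
      ∀ j, (∀ a, ∃ n : ℤ, inner ℂ (η j) (T a (η j)) = (n : ℂ)) ∧ FinNear T (η j) := by
  induction n using Nat.strong_induction_on with
  | _ n ih =>
    intro ξ hξ hn
    by_cases h0 : ξ = 0
    · subst h0
      exact ⟨0, Fin.elim0, Nat.zero_le _, fun a => by simp, fun j => j.elim0⟩
    · obtain ⟨η, hη0, hηi, hηf, hηo⟩ := split hT hξ h0
      set ζ := ξ - η with hζ
      have hc1 : ∀ a, inner ℂ η (T a ζ) = 0 := by
        intro a
        have := hηo (-a)
        rwa [hT.adj, neg_neg] at this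
      have hc2 : ∀ a, inner ℂ ζ (T a η) = 0 := by
        intro a
        rw [← inner_conj_symm, hηo a, map_zero]
      have hsum : ∀ a, inner ℂ ξ (T a ξ) = inner ℂ η (T a η) + inner ℂ ζ (T a ζ) := by
        intro a
        have e : ξ = η + ζ := by rw [hζ]; abel
        conv_lhs => rw [e, map_add]
        rw [inner_add_left, inner_add_right, inner_add_right, hc1, hc2]
        ring
      have hζi : ∀ a, ∃ n : ℤ, inner ℂ ζ (T a ζ) = (n : ℂ) := by
        intro a
        obtain ⟨k, hk⟩ := hξ a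
        obtain ⟨l, hl⟩ := hηi a
        refine ⟨k - l, ?_⟩
        push_cast
        rw [← hk, ← hl, hsum]
        ring
      have hsq : ∀ y : H, (∀ a, ∃ n : ℤ, inner ℂ y (T a y) = (n : ℂ)) → ∃ m : ℕ, ‖y‖ ^ 2 = m :=
        fun y hy => norm_orb hT hy (orb_self hT y)
      obtain ⟨m, hm⟩ := hsq η hηi
      obtain ⟨l, hl⟩ := hsq ζ hζi
      have hadd : (n : ℝ) = m + l := by
        have h1 := hsum 0
        rw [hT.zero, hT.zero, hT.zero, inner_self_eq_norm_sq_to_K, inner_self_eq_norm_sq_to_K,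
          inner_self_eq_norm_sq_to_K] at h1
        have h2 := congrArg Complex.re h1
        rw [← hn, ← hm, ← hl]
        simpa [← Complex.ofReal_pow] using h2
      have hadd' : n = m + l := by exact_mod_cast hadd
      have hm1 : 1 ≤ m := by
        rcases Nat.eq_zero_or_pos m with h | h
        · exfalso
          rw [h] at hm
          exact hη0 (norm_eq_zero.1 (by simpa using hm))
        · exact h
      obtain ⟨r, ηs, hr, hs, hf⟩ := ih l (by omega) ζ hζi hl
      refine ⟨r + 1, Fin.cons η ηs, by omega, fun a => ?_, fun j => ?_⟩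
      · rw [hsum, Fin.sum_univ_succ, hs]
        simp
      · refine Fin.cases ?_ (fun j => ?_) j
        · simpa using ⟨hηi, hηf⟩
        · simpa using hf j

end rep

end Pool.Agent.Y139.ID
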