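import Pool.Agent.Y139.ID.Tor2

/-! Symmetric functions on the torus and traces of tensor products of exterior powers. -/

set_option autoImplicit false

namespace Pool.Agent.Y139.ID

open Filter Topology Complex MeasureTheory UnitAddTorus

variable {N : ℕ}

/-- the `i`-th eigenvalue -/
noncomputable def ev (x : UnitAddTorus (Fin N)) (i : Fin N) : ℂ := fourier 1 (x i)

/-- the trace of the `k`-th exterior power -/
noncomputable def es (k : ℕ) (x : UnitAddTorus (Fin N)) : ℂ :=
  ∑ S ∈ Finset.powersetCard k Finset.univ, ∏ i ∈ S, ev x i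

/-- the trace of a tensor product of exterior powers -/
noncomputable def chiW {r : ℕ} (k : Fin r → ℕ) (x : UnitAddTorus (Fin N)) : ℂ := ∏ j, es (k j) x

/-- self-dual points -/
def SD (N : ℕ) : Set (UnitAddTorus (Fin N)) :=
  {x | ∃ σ : Equiv.Perm (Fin N), ∀ j, x (σ j) = - x j}

theorem continuous_ev (i : Fin N) : Continuous fun x : UnitAddTorus (Fin N) => ev x i := by
  unfold ev
  fun_prop

theorem continuous_es (k : ℕ) : Continuous (es k : UnitAddTorus (Fin N) → ℂ) := by
  unfold es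
  exact continuous_finsetSum _ fun S _ => continuous_finsetProd _ fun i _ => continuous_ev i

theorem continuous_chiW {r : ℕ} (k : Fin r → ℕ) :
    Continuous (chiW k : UnitAddTorus (Fin N) → ℂ) := by
  unfold chiW
  exact continuous_finsetProd _ fun i _ => continuous_es _

theorem isClosed_SD : IsClosed (SD N) := by
  have : SD N = ⋃ σ : Equiv.Perm (Fin N), ⋂ j, {x : UnitAddTorus (Fin N) | x (σ j) = - x j} := by
    ext x
    simp [SD]
  rw [this]
  refine isClosed_iUnion_of_finite fun σ => isClosed_iInter fun j => ?_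
  exact isClosed_eq (by fun_prop) (by fun_prop)

theorem ev_ne (x : UnitAddTorus (Fin N)) (i : Fin N) : ev x i ≠ 0 := by
  unfold ev
  rw [fourier_apply]
  exact Circle.coe_ne_zero _

theorem norm_ev (x : UnitAddTorus (Fin N)) (i : Fin N) : ‖ev x i‖ = 1 := by
  unfold ev
  rw [fourier_apply]
  exact Circle.norm_coe _

theorem mFourier_ev (l : Fin N → ℤ) (x : UnitAddTorus (Fin N)) :
    mFourier l x = ∏ i, ev x i ^ l i := by
  simp only [mFourier, ContinuousMap.coe_mk]
  refine Finset.prod_congr rfl fun i _ => ?_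
  unfold ev
  simp only [fourier_apply, one_smul, AddCircle.toCircle_zsmul, Circle.coe_zpow]

theorem ev_neg (x : UnitAddTorus (Fin N)) (i : Fin N) : ev (-x) i = (ev x i)⁻¹ := by
  unfold ev
  simp only [fourier_apply, one_smul, Pi.neg_apply, AddCircle.toCircle_neg, Circle.coe_inv]

/-- the determinant is `1` or `-1` at self-dual points -/
theorem det_sq {x : UnitAddTorus (Fin N)} (hx : x ∈ SD N) : (∏ i, ev x i) ^ 2 = 1 := by
  obtain ⟨σ, hσ⟩ := hx
  have h1 : ∏ i, ev x i = ∏ i, (ev x i)⁻¹ := by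
    rw [← Equiv.prod_comp σ]
    refine Finset.prod_congr rfl fun i _ => ?_
    unfold ev
    rw [hσ i]
    simp only [fourier_apply, one_smul, AddCircle.toCircle_neg, Circle.coe_inv]
  rw [Finset.prod_inv_distrib] at h1
  have h2 : ∏ i, ev x i ≠ 0 := Finset.prod_ne_zero_iff.2 fun i _ => ev_ne x i
  rw [pow_two]
  calc (∏ i, ev x i) * ∏ i, ev x i = (∏ i, ev x i)⁻¹ * ∏ i, ev x i := by rw [← h1]
    _ = 1 := inv_mul_cancel₀ h2

/-- the functions attached to words -/
def wordFun (N : ℕ) : Set (UnitAddTorus (Fin N) → ℂ) :=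
  {f | ∃ (r : ℕ) (k : Fin r → ℕ), (∀ j, k j ≤ N) ∧ f = chiW k}

theorem word_one : (1 : UnitAddTorus (Fin N) → ℂ) ∈ wordFun N :=
  ⟨0, Fin.elim0, fun j => j.elim0, by ext x; simp [chiW]⟩

theorem word_mul {f g : UnitAddTorus (Fin N) → ℂ} (hf : f ∈ wordFun N) (hg : g ∈ wordFun N) :
    f * g ∈ wordFun N := by
  obtain ⟨r, k, hk, rfl⟩ := hf
  obtain ⟨s, l, hl, rfl⟩ := hg
  refine ⟨r + s, Fin.append k l, fun j => ?_, ?_⟩
  · refine Fin.addCases (fun i => ?_) (fun i => ?_) j
    · simpa using hk i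
    · simpa using hl i
  · ext x
    simp only [Pi.mul_apply, chiW, Fin.prod_univ_add, Fin.append_left, Fin.append_right]

theorem word_es (k : ℕ) (hk : k ≤ N) : (es k : UnitAddTorus (Fin N) → ℂ) ∈ wordFun N :=
  ⟨1, fun _ => k, fun _ => hk, by ext x; simp [chiW]⟩

theorem adjoin_le : Subalgebra.toSubmodule (Algebra.adjoin ℤ
    (Set.range fun i : Fin N => (es (i + 1) : UnitAddTorus (Fin N) → ℂ))) ≤
    Submodule.span ℤ (wordFun N) := by
  rw [Algebra.adjoin_eq_span]
  refine Submodule.span_mono fun f hf => ?_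
  induction hf using Submonoid.closure_induction with
  | mem f hf =>
    obtain ⟨i, rfl⟩ := hf
    exact word_es _ (by omega)
  | one => exact word_one
  | mul f g _ _ hf hg => exact word_mul hf hg

/-- symmetrised characters are integer combinations of traces, on self-dual points -/
theorem sym_combo (l : Fin N → ℤ) : ∃ g ∈ Submodule.span ℤ (wordFun N), ∀ x ∈ SD N,
    ∑ σ : Equiv.Perm (Fin N), mFourier l (fun i => x (σ i)) = g x := by
  classical
  obtain ⟨M, hM⟩ : ∃ M : ℕ, ∀ i, 0 ≤ l i + 2 * M := by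
    refine ⟨∑ i, (l i).natAbs, fun i => ?_⟩
    have h1 : (l i).natAbs ≤ ∑ i, (l i).natAbs :=
      Finset.single_le_sum (f := fun i => (l i).natAbs) (fun _ _ => Nat.zero_le _)
        (Finset.mem_univ i)
    omega
  set m : Fin N → ℕ := fun i => (l i + 2 * M).toNat with hm
  have hmi : ∀ i, (m i : ℤ) = l i + 2 * M := fun i => Int.toNat_of_nonneg (hM i)
  -- the symmetric polynomial
  set P : MvPolynomial (Fin N) ℤ :=
    ∑ σ : Equiv.Perm (Fin N), ∏ i, MvPolynomial.X (σ i) ^ m i with hP
  have hPs : P.IsSymmetric := by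
    intro τ
    rw [hP, map_sum]
    refine Fintype.sum_equiv (Equiv.mulLeft τ) _ _ fun σ => ?_
    simp [map_prod, MvPolynomial.rename_X]
  obtain ⟨p, hp⟩ := MvPolynomial.esymmAlgHom_fin_surjective ℤ (le_refl N) ⟨P, hPs⟩
  have hp' : MvPolynomial.aeval (fun i : Fin N => MvPolynomial.esymm (Fin N) ℤ (i + 1)) p = P := by
    rw [← MvPolynomial.esymmAlgHom_apply, hp]
  set g : UnitAddTorus (Fin N) → ℂ :=
    MvPolynomial.aeval (fun i : Fin N => (es (i + 1) : UnitAddTorus (Fin N) → ℂ)) p with hg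
  refine ⟨g, adjoin_le ?_, fun x hx => ?_⟩
  · change g ∈ Algebra.adjoin ℤ _
    rw [Algebra.adjoin_range_eq_range_aeval]
    exact ⟨p, rfl⟩
  · have h1 : ∀ σ : Equiv.Perm (Fin N), mFourier l (fun i => x (σ i)) = ∏ i, ev x (σ i) ^ m i := by
      intro σ
      rw [mFourier_ev]
      have h2 : ∀ i, ev (fun i => x (σ i)) i = ev x (σ i) := fun i => rfl
      simp only [h2]
      have h3 : ∏ i, ev x (σ i) ^ m i = ∏ i, (ev x (σ i) ^ l i * (ev x (σ i) ^ 2) ^ M) := by
        refine Finset.prod_congr rfl fun i _ => ?_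
        rw [← zpow_natCast, hmi, zpow_add₀ (ev_ne x _), ← pow_mul]
        congr 1
      rw [h3, Finset.prod_mul_distrib, Finset.prod_pow, Finset.prod_pow,
        Equiv.prod_comp σ (fun i => ev x i), det_sq hx, one_pow, mul_one]
    simp only [h1]
    have h4 : MvPolynomial.aeval (ev x) P = ∑ σ : Equiv.Perm (Fin N), ∏ i, ev x (σ i) ^ m i := by
      rw [hP]
      simp [map_sum, map_prod]
    have h6 : MvPolynomial.aeval (ev x) P = MvPolynomial.aeval (fun i : Fin N =>
        MvPolynomial.aeval (ev x) (MvPolynomial.esymm (Fin N) ℤ (i + 1))) p := by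
      rw [← hp']
      exact MvPolynomial.comp_aeval_apply (R := ℤ) (φ := MvPolynomial.aeval (ev x)) _ p
    rw [← h4, h6, hg]
    have h5 : ∀ q : MvPolynomial (Fin N) ℤ,
        (MvPolynomial.aeval (fun i : Fin N => (es (i + 1) : UnitAddTorus (Fin N) → ℂ)) q) x =
        MvPolynomial.aeval (fun i : Fin N => es (i + 1) x) q := by
      intro q
      have := MvPolynomial.comp_aeval_apply (R := ℤ) (φ := Pi.evalAlgHom ℤ (fun _ : UnitAddTorus (Fin N) => ℂ) x)
        (fun i : Fin N => (es (i + 1) : UnitAddTorus (Fin N) → ℂ)) q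
      simpa using this
    rw [h5]
    congr 1
    ext i
    simp [MvPolynomial.esymm, es, map_sum, map_prod]

end Pool.Agent.Y139.ID
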