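import Pool.Agent.Y139.ID.PD2

/-! Measures on the torus: multiplication by characters as a unitary representation. -/

set_option autoImplicit false

namespace Pool.Agent.Y139.ID

open Filter Topology Complex MeasureTheory UnitAddTorus

variable {d : Type*} [Fintype d] (μ : Measure (UnitAddTorus d)) [IsFiniteMeasure μ]

/-- multiplication by the character `n` -/
noncomputable def mulT (n : d → ℤ) : Lp ℂ 2 μ →L[ℂ] Lp ℂ 2 μ :=
  (ContinuousLinearMap.mul ℂ ℂ).holderL μ ⊤ 2 2 (ContinuousMap.toLp ⊤ μ ℂ (mFourier n))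

theorem coeFn_mulT (n : d → ℤ) (f : Lp ℂ 2 μ) :
    mulT μ n f =ᵐ[μ] fun x => mFourier n x * f x := by
  unfold mulT
  rw [ContinuousLinearMap.holderL_apply_apply]
  refine (ContinuousLinearMap.coeFn_holder _ _ _).trans ?_
  filter_upwards [ContinuousMap.coeFn_toLp (p := ⊤) (𝕜 := ℂ) μ (mFourier n)] with x hx
  rw [hx]
  rfl

theorem urep_mulT : URep (mulT μ) where
  zero f := by
    refine Lp.ext ((coeFn_mulT μ 0 f).trans ?_)
    filter_upwards with x
    rw [mFourier_zero]
    simp
  add a b f := by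
    refine Lp.ext ((coeFn_mulT μ (a + b) f).trans ?_)
    filter_upwards [coeFn_mulT μ a (mulT μ b f), coeFn_mulT μ b f] with x h1 h2
    rw [h1, h2, mFourier_add, mul_assoc]
  adj a f g := by
    rw [L2.inner_def, L2.inner_def]
    refine integral_congr_ae ?_
    filter_upwards [coeFn_mulT μ a f, coeFn_mulT μ (-a) g] with x h1 h2
    rw [h1, h2, mFourier_neg]
    simp only [RCLike.inner_apply, map_mul]
    ring

theorem inner_mulT (n : d → ℤ) (f : Lp ℂ 2 μ) :
    inner ℂ f (mulT μ n f) = ∫ x, mFourier n x * ((‖f x‖ ^ 2 : ℝ) : ℂ) ∂μ := by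
  rw [L2.inner_def]
  refine integral_congr_ae ?_
  filter_upwards [coeFn_mulT μ n f] with x h1
  rw [h1]
  simp only [RCLike.inner_apply]
  rw [mul_assoc, Complex.mul_conj, Complex.normSq_eq_norm_sq]

/-- the constant function `1` -/
noncomputable def oneLp : Lp ℂ 2 μ := (memLp_const (1 : ℂ)).toLp (fun _ => (1 : ℂ))

theorem inner_oneLp (n : d → ℤ) : inner ℂ (oneLp μ) (mulT μ n (oneLp μ)) =
    ∫ x, mFourier n x ∂μ := by
  rw [inner_mulT]
  refine integral_congr_ae ?_
  filter_upwards [(memLp_const (1 : ℂ)).coeFn_toLp (μ := μ) (p := 2)] with x h1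
  unfold oneLp
  rw [h1]
  simp

theorem norm_oneLp : ‖oneLp μ‖ ^ 2 = μ.real Set.univ := by
  have h1 := inner_oneLp μ 0
  rw [(urep_mulT μ).zero, inner_self_eq_norm_sq_to_K, mFourier_zero] at h1
  have h2 := congrArg Complex.re h1
  simp only [ContinuousMap.one_apply, integral_const] at h2
  simpa [← Complex.ofReal_pow] using h2

end Pool.Agent.Y139.ID
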