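import Pool.Agent.Y139.ID.Tor
import Pool.Agent.Y139.ID.Haar

/-! Measures on the torus with integer Fourier coefficients. -/

set_option autoImplicit false

namespace Pool.Agent.Y139.ID

open Filter Topology Complex MeasureTheory UnitAddTorus

variable {d : Type*} [Fintype d]

/-- the closed subgroup cut out by a group of characters -/
def annih (Γ : AddSubgroup (d → ℤ)) : AddSubgroup (UnitAddTorus d) where
  carrier := {x | ∀ n ∈ Γ, mFourier n x = 1}
  zero_mem' := fun n _ => mFourier_apply_zero n
  add_mem' := fun {x y} hx hy n hn => by rw [mFourier_apply_add, hx n hn, hy n hn, mul_one]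
  neg_mem' := fun {x} hx n hn => by rw [mFourier_apply_neg, hx n hn, map_one]

theorem mem_annih {Γ : AddSubgroup (d → ℤ)} {x : UnitAddTorus d} :
    x ∈ annih Γ ↔ ∀ n ∈ Γ, mFourier n x = 1 := Iff.rfl

theorem isClosed_annih (Γ : AddSubgroup (d → ℤ)) : IsClosed (annih Γ : Set (UnitAddTorus d)) := by
  have : (annih Γ : Set (UnitAddTorus d)) = ⋂ n ∈ Γ, {x | mFourier n x = 1} := by
    ext x
    simp [mem_annih]
  rw [this]
  exact isClosed_biInter fun n _ => isClosed_eq (by fun_prop) continuous_const

/-- **One piece.** -/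
theorem piece (μ : Measure (UnitAddTorus d)) [IsFiniteMeasure μ] (η : Lp ℂ 2 μ)
    (hint : ∀ a, ∃ n : ℤ, inner ℂ η (mulT μ a η) = (n : ℂ)) (hfin : FinNear (mulT μ) η) :
    ∃ (Γ : AddSubgroup (d → ℤ)) (ρ : Measure (UnitAddTorus d)) (c : (d → ℤ) →₀ ℤ),
      IsHaarOn (annih Γ) ρ ∧ (∀ x ∈ annih Γ, (trig c x).im = 0 ∧ 0 ≤ (trig c x).re) ∧
      ∀ n : d → ℤ, inner ℂ η (mulT μ n η) = ∫ x, mFourier n x * trig c x ∂ρ := by
  classical
  -- the measure `|η|² μ`
  set g : UnitAddTorus d → NNReal := fun x => ‖η x‖₊ ^ 2 with hg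
  have hηm : Measurable (η : UnitAddTorus d → ℂ) := (Lp.stronglyMeasurable η).measurable
  have hgm : Measurable g := by fun_prop
  set ν : Measure (UnitAddTorus d) := μ.withDensity fun x => (g x : ENNReal) with hν
  have hlint : ∫⁻ x, (g x : ENNReal) ∂μ ≠ ⊤ := by
    have h1 : Integrable (fun x => ‖η x‖ ^ 2) μ := by
      have := (Lp.memLp η).integrable_norm_pow (p := 2) (by norm_num)
      simpa using this
    have h2 := h1.hasFiniteIntegral
    unfold HasFiniteIntegral at h2
    refine ne_of_lt (lt_of_le_of_lt (le_of_eq ?_) h2)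
    refine lintegral_congr fun x => ?_
    rw [hg]
    simp only [enorm_pow, enorm_norm]
    rw [ENNReal.coe_pow]
    rfl
  have hνf : IsFiniteMeasure ν := isFiniteMeasure_withDensity hlint
  have hνint : ∀ f : UnitAddTorus d → ℂ, ∫ x, f x ∂ν = ∫ x, f x * ((‖η x‖ ^ 2 : ℝ) : ℂ) ∂μ := by
    intro f
    rw [hν, integral_withDensity_eq_integral_smul hgm]
    refine integral_congr_ae (Eventually.of_forall fun x => ?_)
    simp only [hg, NNReal.smul_def, NNReal.coe_pow, coe_nnnorm, Complex.real_smul]
    ring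
  have hνF : ∀ n : d → ℤ, ∫ x, mFourier n x ∂ν = inner ℂ η (mulT μ n η) := by
    intro n
    rw [hνint, inner_mulT]
  -- the characters which are trivial on `ν`
  have hT := urep_mulT μ
  set Γ : AddSubgroup (d → ℤ) :=
    { carrier := {n | mulT μ n η = η}
      zero_mem' := hT.zero η
      add_mem' := fun {a b} ha hb => by
        have ha : mulT μ a η = η := ha
        have hb : mulT μ b η = η := hb
        change mulT μ (a + b) η = η
        rw [hT.add, hb, ha]
      neg_mem' := fun {a} ha => by
        have ha : mulT μ a η = η := ha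
        change mulT μ (-a) η = η
        conv_lhs => rw [← ha]
        rw [← hT.add, neg_add_cancel, hT.zero] } with hΓ
  have hΓiff : ∀ n, n ∈ Γ ↔ ∀ᵐ x ∂ν, mFourier n x = 1 := by
    intro n
    rw [hν, ae_withDensity_iff (by fun_prop)]
    constructor
    · intro hn
      have hn' : mulT μ n η = η := hn
      have h1 := coeFn_mulT μ n η
      rw [hn'] at h1
      filter_upwards [h1] with x hx hx0
      have hη0 : η x ≠ 0 := by
        intro h0
        apply hx0
        simp [hg, h0]
      have h2 : (1 - mFourier n x) * η x = 0 := by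
        rw [sub_mul, one_mul, ← hx, sub_self]
      rcases mul_eq_zero.1 h2 with h3 | h3
      · exact (sub_eq_zero.1 h3).symm
      · exact absurd h3 hη0
    · intro hn
      refine Lp.ext ((coeFn_mulT μ n η).trans ?_)
      filter_upwards [hn] with x hx
      by_cases h0 : η x = 0
      · rw [h0, mul_zero]
      · rw [hx ?_, one_mul]
        simp only [hg, ne_eq, ENNReal.coe_eq_zero]
        exact pow_ne_zero _ (by simpa using h0)
  obtain ⟨ρ, hρ, hρo⟩ := exists_haarOn (annih Γ) (isClosed_annih Γ)
  have hρp := hρ.isProb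
  have hνH : ∀ᵐ x ∂ν, x ∈ annih Γ := by
    have h1 : ∀ᵐ x ∂ν, ∀ n : Γ, mFourier (n : d → ℤ) x = 1 := by
      rw [ae_all_iff]
      exact fun n => (hΓiff n).1 n.2
    filter_upwards [h1] with x hx n hn
    exact hx ⟨n, hn⟩
  have hρF : ∀ n : d → ℤ, ∫ x, mFourier n x ∂ρ = if n ∈ Γ then 1 else 0 := by
    intro n
    split_ifs with hn
    · exact hρ.integral_one fun x hx => hx n hn
    · refine hρ.integral_zero ?_
      by_contra hcon
      push Not at hcon
      apply hn
      rw [hΓiff]
      filter_upwards [hνH] with x hx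
      exact hcon x hx
  -- the trigonometric polynomial
  have hfin' : Set.Finite {w : Lp ℂ 2 μ | (∃ a, w = mulT μ a η) ∧ inner ℂ η w ≠ 0} := hfin
  have hW : ∀ w, w ∈ hfin'.toFinset ↔ (∃ a, w = mulT μ a η) ∧ inner ℂ η w ≠ 0 := by
    intro w
    simp
  choose k hk using hint
  have hex : ∀ w : Lp ℂ 2 μ, ∃ a : d → ℤ, w ∈ hfin'.toFinset → w = mulT μ a η := by
    intro w
    by_cases hw : w ∈ hfin'.toFinset
    · obtain ⟨⟨a, ha⟩, -⟩ := (hW w).1 hw
      exact ⟨a, fun _ => ha⟩
    · exact ⟨0, fun h => absurd h hw⟩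
  choose A hA using hex
  set c : (d → ℤ) →₀ ℤ := ∑ w ∈ hfin'.toFinset, Finsupp.single (-A w) (k (A w)) with hc
  have htrig : ∀ x, trig c x = ∑ w ∈ hfin'.toFinset, (k (A w) : ℂ) * mFourier (-A w) x := by
    intro x
    rw [hc, trig_finset_sum]
    exact Finset.sum_congr rfl fun w _ => trig_single _ _ _
  have hF : ∀ n : d → ℤ, inner ℂ η (mulT μ n η) = ∫ x, mFourier n x * trig c x ∂ρ := by
    intro n
    have h1 : ∀ x, mFourier n x * trig c x =
        ∑ w ∈ hfin'.toFinset, (k (A w) : ℂ) * mFourier (n + -A w) x := by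
      intro x
      rw [htrig, Finset.mul_sum]
      refine Finset.sum_congr rfl fun w _ => ?_
      rw [mFourier_add]
      ring
    simp only [h1]
    rw [integral_finsetSum _ fun w _ => (integrable_cont ρ (by fun_prop))]
    simp only [integral_const_mul, hρF]
    have h2 : ∀ w ∈ hfin'.toFinset, (k (A w) : ℂ) * (if n + -A w ∈ Γ then 1 else 0) =
        if w = mulT μ n η then inner ℂ η w else 0 := by
      intro w hw
      have h3 : n + -A w ∈ Γ ↔ w = mulT μ n η := by
        have h4 : mulT μ n η = mulT μ (A w) (mulT μ (n + -A w) η) := by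
          rw [← hT.add]
          congr 2
          abel
        constructor
        · intro h5
          have h5' : mulT μ (n + -A w) η = η := h5
          rw [h4, h5', ← hA w hw]
        · intro h5
          change mulT μ (n + -A w) η = η
          have h6 : mulT μ (-A w) (mulT μ n η) = mulT μ (-A w) w := by rw [← h5]
          rw [← hT.add] at h6
          have h7 : mulT μ (-A w) w = η := by
            refine (congrArg (mulT μ (-A w)) (hA w hw)).trans ?_
            rw [← hT.add, neg_add_cancel, hT.zero]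
          rw [h7] at h6
          rw [add_comm]
          exact h6
      by_cases h8 : w = mulT μ n η
      · rw [if_pos (h3.2 h8), if_pos h8, mul_one, ← hk (A w), ← hA w hw]
      · rw [if_neg (fun h => h8 (h3.1 h)), if_neg h8, mul_zero]
    rw [Finset.sum_congr rfl h2, Finset.sum_ite_eq' hfin'.toFinset (mulT μ n η)]
    split_ifs with h9
    · rfl
    · by_contra h10
      exact h9 ((hW _).2 ⟨⟨n, rfl⟩, h10⟩)
  refine ⟨Γ, ρ, c, hρ, ?_, hF⟩
  -- positivity
  have hint : ∀ f : UnitAddTorus d → ℂ, Continuous f →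
      ∫ x, f x ∂ν = ∫ x, f x * trig c x ∂ρ := by
    intro f hf
    refine integral_eq_of_fourier' (continuous_trig c) (fun n => ?_) hf
    rw [hνF, hF]
  have him : ∀ x ∈ annih Γ, (trig c x).im = 0 := by
    set h : UnitAddTorus d → ℝ := fun x => (trig c x).im with hh
    have hhc : Continuous h := Complex.continuous_im.comp (continuous_trig c)
    have h1 := hint (fun x => (h x : ℂ)) (by fun_prop)
    have h2 : (∫ x, (h x : ℂ) * trig c x ∂ρ).im = ∫ x, h x ^ 2 ∂ρ := by
      have h3 := integral_im (𝕜 := ℂ) (μ := ρ) (f := fun x => (h x : ℂ) * trig c x)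
        (integrable_cont ρ ((Complex.continuous_ofReal.comp hhc).mul (continuous_trig c)))
      simp only [RCLike.im_to_complex] at h3
      rw [← h3]
      refine integral_congr_ae (Eventually.of_forall fun x => ?_)
      simp only [Complex.im_ofReal_mul, hh]
      ring
    have h4 : (∫ x, (h x : ℂ) ∂ν).im = 0 := by
      rw [integral_complex_ofReal, Complex.ofReal_im]
    have h5 : ∫ x, h x ^ 2 ∂ρ = 0 := by rw [← h2, ← h1, h4]
    intro x hx
    have h6 := zero_of_integral hρ hρo (g := fun x => h x ^ 2) (by fun_prop)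
      (fun x => sq_nonneg _) h5 x hx
    exact pow_eq_zero_iff (two_ne_zero) |>.1 h6
  have hre : ∀ x ∈ annih Γ, 0 ≤ (trig c x).re := by
    set h : UnitAddTorus d → ℝ := fun x => max (-(trig c x).re) 0 with hh
    have hhc : Continuous h := by
      have := continuous_trig c
      fun_prop
    have h1 := hint (fun x => (h x : ℂ)) (by fun_prop)
    have h2 : (∫ x, (h x : ℂ) * trig c x ∂ρ).re = - ∫ x, h x ^ 2 ∂ρ := by
      have h3 := integral_re (𝕜 := ℂ) (μ := ρ) (f := fun x => (h x : ℂ) * trig c x)
        (integrable_cont ρ ((Complex.continuous_ofReal.comp hhc).mul (continuous_trig c)))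
      simp only [RCLike.re_to_complex] at h3
      rw [← h3, ← integral_neg]
      refine integral_congr_ae (Eventually.of_forall fun x => ?_)
      simp only [Complex.re_ofReal_mul, hh]
      rcases le_total (-(trig c x).re) 0 with h7 | h7
      · rw [max_eq_right h7]
        simp
      · rw [max_eq_left h7]
        ring
    have h4 : 0 ≤ (∫ x, (h x : ℂ) ∂ν).re := by
      rw [integral_complex_ofReal, Complex.ofReal_re]
      exact integral_nonneg fun x => le_max_right _ _
    have h5 : ∫ x, h x ^ 2 ∂ρ = 0 := by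
      refine le_antisymm ?_ (integral_nonneg fun x => sq_nonneg _)
      rw [h1, h2] at h4
      linarith
    intro x hx
    have h6 := zero_of_integral hρ hρo (g := fun x => h x ^ 2) (by fun_prop)
      (fun x => sq_nonneg _) h5 x hx
    have h7 : h x = 0 := pow_eq_zero_iff (two_ne_zero) |>.1 h6
    have h8 : -(trig c x).re ≤ h x := le_max_left _ _
    linarith
  exact fun x hx => ⟨him x hx, hre x hx⟩

/-- **Measures on a torus with integer Fourier coefficients** are sums of at most `mass` pieces,
each a trigonometric polynomial with integer coefficients times the Haar measure of a closed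
subgroup. -/
theorem structure_int (μ : Measure (UnitAddTorus d)) [IsFiniteMeasure μ]
    (h : ∀ n : d → ℤ, ∃ k : ℤ, ∫ x, mFourier n x ∂μ = (k : ℂ)) (m : ℕ)
    (hm : μ.real Set.univ = m) :
    ∃ (r : ℕ) (Γ : Fin r → AddSubgroup (d → ℤ)) (ρ : Fin r → Measure (UnitAddTorus d))
      (c : Fin r → ((d → ℤ) →₀ ℤ)), r ≤ m ∧ (∀ j, IsHaarOn (annih (Γ j)) (ρ j)) ∧
      (∀ j, ∀ x ∈ annih (Γ j), (trig (c j) x).im = 0 ∧ 0 ≤ (trig (c j) x).re) ∧
      ∀ f : UnitAddTorus d → ℂ, Continuous f →
        ∫ x, f x ∂μ = ∑ j, ∫ x, f x * trig (c j) x ∂(ρ j) := by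
  classical
  obtain ⟨r, η, hr, hsum, hη⟩ := decomp (urep_mulT μ) m (oneLp μ)
    (fun a => by
      obtain ⟨k, hk⟩ := h a
      exact ⟨k, by rw [inner_oneLp, hk]⟩)
    (by rw [norm_oneLp, hm])
  choose Γ ρ c h1 h2 h3 using fun j => piece μ (η j) (hη j).1 (hη j).2
  refine ⟨r, Γ, ρ, c, hr, h1, h2, fun f hf => ?_⟩
  have hp : ∀ j, IsProbabilityMeasure (ρ j) := fun j => (h1 j).isProb
  -- both sides are continuous functionals
  have h4 := eq_of_fourier (intL μ 1) (∑ j, intL (ρ j) ⟨trig (c j), continuous_trig _⟩)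
    _ (∑ j, ‖(⟨trig (c j), continuous_trig _⟩ : C(UnitAddTorus d, ℂ))‖ * (ρ j).real Set.univ)
    (intL_bound μ 1) (fun f => by
      rw [LinearMap.sum_apply, Finset.sum_mul]
      refine (norm_sum_le _ _).trans (Finset.sum_le_sum fun j _ => ?_)
      exact intL_bound (ρ j) _ f) (fun n => by
      rw [LinearMap.sum_apply]
      have h5 : intL μ 1 (mFourier n) = ∫ x, mFourier n x ∂μ := by
        change ∫ x, mFourier n x * (1 : C(UnitAddTorus d, ℂ)) x ∂μ = _
        simp
      rw [h5, ← inner_oneLp, hsum]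
      exact Finset.sum_congr rfl fun j _ => h3 j n)
  have h6 := congrArg (fun T => T (⟨f, hf⟩ : C(UnitAddTorus d, ℂ))) h4
  simp only [LinearMap.sum_apply] at h6
  have h7 : intL μ 1 ⟨f, hf⟩ = ∫ x, f x ∂μ := by
    change ∫ x, f x * (1 : C(UnitAddTorus d, ℂ)) x ∂μ = _
    simp
  rw [h7] at h6
  exact h6

end Pool.Agent.Y139.ID
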